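import Pool.Agent.Lib_helper15.RB.Defs
import Pool.Agent.Lib_helper17.CR.DefsF
import Pool.Agent.Lib_helper17.RS.P_PF

/-!
# The plain form of Rubin's conjecture: places and data
-/

set_option autoImplicit false
set_option linter.unusedSectionVars false

namespace Pool.Agent.RB

open NumberField IsDedekindDomain Filter Topology

section K

variable {K : Type} [Field K] [NumberField K]

theorem log_nabs (w : RSK.Pl K) (x : K) : Real.log (nabs w x) = RSK.lg w x := by
  rcases w with w | w
  · show Real.log (w x ^ w.mult) = w.mult * Real.log (w x)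
    rw [Real.log_pow]
  · rfl

theorem nabs_zero (w : RSK.Pl K) : nabs w (0 : K) = 0 := by
  rcases w with w | w
  · show w (0 : K) ^ w.mult = 0
    rw [map_zero, zero_pow w.mult_pos.ne']
  · show HeightOneSpectrum.adicAbv K w (0 : K) = 0
    rw [map_zero]

theorem nabs_pos (w : RSK.Pl K) {x : K} (hx : x ≠ 0) : 0 < nabs w x := by
  rcases w with w | w
  · show 0 < w x ^ w.mult
    exact pow_pos (InfinitePlace.pos_iff.2 hx) _
  · show 0 < HeightOneSpectrum.adicAbv K w x
    exact AbsoluteValue.pos _ hx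

theorem nabs_eq_iff (w w' : RSK.Pl K) (x y : K) (hxy : x = 0 ↔ y = 0) :
    nabs w x = nabs w' y ↔ RSK.lg w x = RSK.lg w' y := by
  constructor
  · intro h
    rw [← log_nabs, ← log_nabs, h]
  · intro h
    by_cases hx : x = 0
    · rw [hx, hxy.1 hx, nabs_zero, nabs_zero]
    · have hy : y ≠ 0 := fun h => hx (hxy.2 h)
      rw [← log_nabs, ← log_nabs] at h
      exact Real.log_injOn_pos (Set.mem_Ioi.2 (nabs_pos w hx)) (Set.mem_Ioi.2 (nabs_pos w' hy)) h

theorem nabs_fin_eq_one (v : HeightOneSpectrum (𝓞 K)) (x : K) :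
    nabs (Sum.inr v) x = 1 ↔ v.valuation K x = 1 := by
  show HeightOneSpectrum.adicAbv K v x = 1 ↔ _
  rw [HeightOneSpectrum.adicAbv_def]
  have h := WithZeroMulInt.toNNReal_eq_one_iff (v.valuation K x)
    (HeightOneSpectrum.absNorm_ne_zero v) (HeightOneSpectrum.one_lt_absNorm_nnreal v).ne'
  rw [← h]
  exact NNReal.coe_eq_one

theorem nabs_fin_lt_one (v : HeightOneSpectrum (𝓞 K)) (x : K) :
    nabs (Sum.inr v) x < 1 ↔ v.valuation K x < 1 := by
  show HeightOneSpectrum.adicAbv K v x < 1 ↔ _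
  rw [HeightOneSpectrum.adicAbv_def]
  have h := WithZeroMulInt.toNNReal_lt_one_iff (m := v.valuation K x)
    (HeightOneSpectrum.one_lt_absNorm_nnreal v)
  rw [← h]
  exact NNReal.coe_lt_one

end K

variable {F H : Type} [Field F] [NumberField F] [Field H] [NumberField H] [Algebra F H]
  {G : Type} [CommGroup G]

theorem below_eq (w : RSK.Pl H) : below F w = RSK.dn F w := by
  rcases w with w | w <;> rfl

theorem inl_inj {w w' : InfinitePlace H}
    (h : ∀ x, RSK.lg (Sum.inl w) x = RSK.lg (Sum.inl w') x) : w = w' := by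
  have h' : ∀ x, (w.mult : ℝ) * Real.log (w x) = w'.mult * Real.log (w' x) := h
  have e2 : ∀ v : InfinitePlace H, v (2 : H) = 2 := by
    intro v
    rw [← InfinitePlace.norm_embedding_eq v, map_ofNat]
    simp
  have hl2 : Real.log 2 ≠ 0 := (Real.log_pos (by norm_num)).ne'
  have hm : (w.mult : ℝ) = w'.mult := by
    have := h' 2
    rw [e2, e2] at this
    exact mul_right_cancel₀ hl2 this
  have hm0 : (w.mult : ℝ) ≠ 0 := by
    have := w.mult_pos
    positivity
  have hx : ∀ x : H, w x = w' x := by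
    intro x
    by_cases hx : x = 0
    · rw [hx, map_zero, map_zero]
    · have h1 := h' x
      rw [← hm] at h1
      have h2 := mul_left_cancel₀ hm0 h1
      exact Real.log_injOn_pos (Set.mem_Ioi.2 (InfinitePlace.pos_iff.2 hx))
        (Set.mem_Ioi.2 (InfinitePlace.pos_iff.2 hx)) h2
  exact DFunLike.ext _ _ hx

theorem inr_le {v v' : HeightOneSpectrum (𝓞 H)}
    (h : ∀ x, RSK.lg (Sum.inr v) x = RSK.lg (Sum.inr v') x) : v.asIdeal ≤ v'.asIdeal := by
  intro x hx
  by_cases hx0 : x = 0
  · rw [hx0]; exact Ideal.zero_mem _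
  have hx0' : (x : H) ≠ 0 := by
    intro h0
    exact hx0 (RingOfIntegers.ext h0)
  have h2 := (nabs_eq_iff (Sum.inr v) (Sum.inr v') (x : H) (x : H) Iff.rfl).2 (h (x : H))
  have h3 : nabs (Sum.inr v) (x : H) < 1 :=
    (nabs_fin_lt_one v _).2 ((HeightOneSpectrum.valuation_lt_one_iff_mem v x).2 hx)
  rw [h2] at h3
  exact (HeightOneSpectrum.valuation_lt_one_iff_mem v' x).1 ((nabs_fin_lt_one v' _).1 h3)

theorem inr_inj {v v' : HeightOneSpectrum (𝓞 H)}
    (h : ∀ x, RSK.lg (Sum.inr v) x = RSK.lg (Sum.inr v') x) : v = v' :=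
  HeightOneSpectrum.ext (le_antisymm (inr_le h) (inr_le fun x => (h x).symm))

theorem inv_iff (σ : H ≃ₐ[F] H) (W : RSK.Pl H) :
    (∀ x, nabs W (σ x) = nabs W x) ↔ RSK.act σ W = W := by
  have h0 : ∀ x : H, σ x = 0 ↔ x = 0 := fun x => map_eq_zero_iff σ σ.injective
  constructor
  · intro h
    have h1 : ∀ y, RSK.lg (RSK.act σ W) y = RSK.lg W y := by
      intro y
      have e : y = σ (σ.symm y) := (σ.apply_symm_apply y).symm
      rw [e, RSK.lg_act]
      exact ((nabs_eq_iff W W _ _ (h0 _)).1 (h _)).symm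
    rcases W with w | w
    · exact congrArg Sum.inl (inl_inj h1)
    · exact congrArg Sum.inr (inr_inj h1)
  · intro h x
    rw [nabs_eq_iff W W _ _ (h0 x)]
    conv_lhs => rw [← h]
    rw [RSK.lg_act]

theorem dg_eq (ι : G ≃* (H ≃ₐ[F] H)) (v : RSK.Pl F) : Dg ι v = CR.dgF ι v := by
  have e : {g : G | ∀ W, below F W = v → ∀ x : H, nabs W (ι g x) = nabs W x} =
      (CR.dgF ι v : Set G) := by
    ext g
    show (∀ W, below F W = v → ∀ x : H, nabs W (ι g x) = nabs W x) ↔
      ∀ W : RSK.Pl H, RSK.dn F W = v → RSK.act (ι g) W = W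
    constructor
    · intro h W hW
      exact (inv_iff (ι g) W).1 (h W ((below_eq W).trans hW))
    · intro h W hW
      exact (inv_iff (ι g) W).2 (h W ((below_eq W).symm.trans hW))
  unfold Dg
  rw [e, Subgroup.closure_eq]

theorem inS_iff (S : Finset (RSK.Pl F)) (harch : ∀ v : InfinitePlace F, Sum.inl v ∈ S)
    (v : RSK.Pl F) : RSK.InS S.toRight v ↔ v ∈ S := by
  rcases v with v | v
  · exact ⟨fun _ => harch v, fun _ => trivial⟩
  · exact Finset.mem_toRight

theorem card_eq (S : Finset (RSK.Pl F)) (harch : ∀ v : InfinitePlace F, Sum.inl v ∈ S) :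
    S.card = Fintype.card (InfinitePlace F) + S.toRight.card := by
  classical
  rw [← Finset.card_toLeft_add_card_toRight]
  congr 1
  have : S.toLeft = Finset.univ := by
    ext v
    simp [harch v]
  rw [this, Finset.card_univ]

theorem data_of {ι : G ≃* (H ≃ₐ[F] H)} {S : Finset (RSK.Pl F)}
    {T : Finset (HeightOneSpectrum (𝓞 F))} {r : ℕ} {w : Fin r → RSK.Pl H}
    {fr : HeightOneSpectrum (𝓞 F) → G} (h : Data ι S T w fr) :
    RSK.Data ι S.toRight T r w fr where
  disj := by
    rw [Finset.disjoint_left]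
    intro v hv hT
    exact h.disj v hT (Finset.mem_toRight.1 hv)
  unram := fun W hW => h.unram W (fun hh => hW (Finset.mem_toRight.2 hh))
  tors := h.tors
  mem := fun i => by
    rw [inS_iff S h.arch, ← below_eq]
    exact ((h.split (w i)).1 ⟨i, rfl⟩).1
  split := fun i σ hσ => ((h.split (w i)).1 ⟨i, rfl⟩).2 σ ((inv_iff σ (w i)).2 hσ)
  inj := fun i j hij => h.inj i j (by rw [below_eq, below_eq]; exact hij)
  all := fun W hW hs => by
    rw [inS_iff S h.arch, ← below_eq] at hW
    obtain ⟨i, hi⟩ := (h.split W).2 ⟨hW, fun σ hσ => hs σ ((inv_iff σ W).1 hσ)⟩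
    exact ⟨i, by rw [← below_eq, ← below_eq]; exact hi⟩
  card := by
    rw [← card_eq S h.arch]
    exact h.card
  frob := fun v hv W hW x => by
    have h1 := (nabs_fin_lt_one W _).1 (h.frob v (fun hh => hv (Finset.mem_toRight.2 hh)) W hW x)
    have h2 : ι (fr v) (x : H) - (x : H) ^ Ideal.absNorm v.asIdeal =
        algebraMap (𝓞 H) H (RingOfIntegers.mapRingEquiv (ι (fr v)).toRingEquiv x -
          x ^ RSK.nv v) := by
      rw [map_sub, map_pow]
      rfl
    rw [h2] at h1
    exact (HeightOneSpectrum.valuation_lt_one_iff_mem W _).1 h1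

end Pool.Agent.RB
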