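import Pool.Agent.Lib_helper15.RB.P2

/-!
# Rubin's conjecture at `p` for all abelian `p`-extensions, in the plain form
-/

set_option autoImplicit false
set_option linter.unusedSectionVars false

namespace Pool.Agent.RB

open NumberField IsDedekindDomain

section Fam

variable {F₀ F H L : Type} [Field F₀] [NumberField F₀] [Field F] [NumberField F] [Field H]
  [NumberField H] [Field L] [NumberField L] [Algebra F₀ F] [Algebra F₀ H] [Algebra F₀ L]
  [Algebra F H] [Algebra F L] [Algebra H L] [IsScalarTower F₀ F H] [IsScalarTower F₀ F L]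
  [IsScalarTower F H L]

theorem symT_of (h : SymP F₀ L) : SY.SymT F H := by
  obtain ⟨h1, k, n, h2⟩ := h
  exact ⟨F₀, L, inferInstance, inferInstance, inferInstance, inferInstance, inferInstance,
    inferInstance, inferInstance, inferInstance, inferInstance, inferInstance, h1, k, n, h2⟩

theorem permLay_of {K : IntermediateField F H} (h : PermK F₀ F K L) : SY.PermLay F K := by
  obtain ⟨h1, n, n', σ, σ', χ, hχ, h2⟩ := h
  have : IsScalarTower F K L := inferInstance
  exact ⟨F₀, L, inferInstance, inferInstance, inferInstance, inferInstance, inferInstance,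
    inferInstance, inferInstance, inferInstance, inferInstance, inferInstance, h1, Fin n, Fin n',
    inferInstance, inferInstance, σ, σ', χ, hχ, h2⟩

theorem lay_of [IsGalois F H] {G : Type} [CommGroup G] [Fintype G] (ι : G ≃* (H ≃ₐ[F] H))
    (h : SymP F₀ L ∨ HolT F₀ F H ∨ KumN F₀ F H ∨
      ∀ K : IntermediateField F H, K ≠ ⊥ → IsCyclic (AlgEquiv F K K) → PermK F₀ F K L)
    (N : Subgroup G) (hN : IsCyclic (G ⧸ N)) (hne : N ≠ ⊤) : SY.PermLay F (RSK.Kf ι N) := by
  rcases h with h | h | h | h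
  · exact KR.starkFam_lay ι (Or.inl (symT_of (F₀ := F₀) (L := L) h)) N hN hne
  · exact KR.starkFam_lay ι (Or.inr (Or.inl (holT_of h))) N hN hne
  · exact KR.starkFam_lay ι (Or.inr (Or.inr (Or.inl (kumN_of h)))) N hN hne
  · obtain ⟨ι', -⟩ := RSK.kf_quo ι N
    refine permLay_of (F₀ := F₀) (L := L) (h (RSK.Kf ι N) ?_ (ι'.isCyclic.1 hN))
    intro hb
    apply hne
    have h1 : Module.finrank F (RSK.Kf ι N) = N.index := RS2.kf_finrank N
    rw [hb, IntermediateField.finrank_bot] at h1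
    exact Subgroup.index_eq_one.1 h1.symm

end Fam

theorem augQ_eq {p e : ℕ} {G : Type} [CommGroup G] (he : Nat.card G = p ^ e) :
    CR.augQ p G = Ideal.span {x | ∃ g : G, x = MonoidAlgebra.single g 1 - 1} := by
  unfold CR.augQ
  congr 1
  ext x
  constructor
  · rintro ⟨g, -, hx⟩
    exact ⟨g, hx⟩
  · rintro ⟨g, hx⟩
    exact ⟨g, ⟨e, by rw [← he]; exact pow_card_eq_one'⟩, hx⟩

theorem atp {F₀ F H L : Type} [Field F₀] [NumberField F₀] [Field F] [NumberField F] [Field H]
    [NumberField H] [Field L] [NumberField L] [Algebra F₀ F] [Algebra F₀ H] [Algebra F₀ L]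
    [Algebra F H] [Algebra F L] [Algebra H L] [IsScalarTower F₀ F H] [IsScalarTower F₀ F L]
    [IsScalarTower F H L] [IsGalois F H] {G : Type} [CommGroup G] [Fintype G]
    (ι : MulEquiv G (AlgEquiv F H H))
    (S : Finset (InfinitePlace F ⊕ HeightOneSpectrum (RingOfIntegers F)))
    (T : Finset (HeightOneSpectrum (RingOfIntegers F))) {r : ℕ}
    (w : Fin r → InfinitePlace H ⊕ HeightOneSpectrum (RingOfIntegers H))
    (fr : HeightOneSpectrum (RingOfIntegers F) → G) (hD : Data ι S T w fr)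
    (p e f : ℕ) (hp : p.Prime) (he : Nat.card G = p ^ e) (hf : Monoid.exponent G = p ^ f) :
    (∀ u, Stark ι S T w fr u →
      (∀ a : MonoidAlgebra ℤ G, (r + p ^ (f - 1) * ((e - f) * (p - 1) + 1) < S.card ∨
        a ∈ Ideal.span {(p : MonoidAlgebra ℤ G) ^ e} ⊔
          Ideal.span {x | ∃ g : G, x = MonoidAlgebra.single g 1 - 1} ^
            (p ^ (f - 1) * ((e - f) * (p - 1) + 1))) → IntAt p a ι S T u) ∧
      ∀ q : ℕ, q.Prime → q ≠ p → (∀ a : ℕ, a.Coprime p → ∃ i : ℕ, q ^ i ≡ a [MOD p ^ f]) →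
        IntAt q 1 ι S T u) ∧
    ((SymP F₀ L ∨ HolT F₀ F H ∨ KumN F₀ F H ∨
      ∀ K : IntermediateField F H, K ≠ ⊥ → IsCyclic (AlgEquiv F K K) → PermK F₀ F K L) →
        ∃ u, Stark ι S T w fr u) := by
  have hpf : Fact p.Prime := ⟨hp⟩
  have hG : IsPGroup p G := IsPGroup.of_card he
  have hD' := data_of hD
  refine ⟨fun u hu => ⟨fun a ha => ?_, fun q hq hqp hgen => ?_⟩, fun h => ?_⟩
  · refine intAt_of hD.arch (KR.starkMul_p ι S.toRight T w fr hD' hp hG ?_) hu
    rw [← card_eq S hD.arch, mQ_eq hp he hf, augQ_eq he, he]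
    push_cast
    exact ha
  · refine intAt_of hD.arch (KR.starkMul_q ι S.toRight T w fr hD' hp hG hq hqp ?_) hu
    rw [hf]
    exact hgen
  · exact stark_of hD (lay_of (F₀ := F₀) (L := L) ι h)

end Pool.Agent.RB
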