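import Pool.Agent.Lib_helper15.RB.A
import Pool.Agent.Lib_helper3.AU.LN

/-!
# The plain form of Rubin's conjecture: elements of the exterior power
-/

set_option autoImplicit false
set_option linter.unusedSectionVars false

namespace Pool.Agent.RB

open NumberField IsDedekindDomain Filter Topology
open Pool.Agent.RSK (extQ extQ_tmul detMap detMap_ι toQ toR qToR evR evQ evZ)
open scoped TensorProduct

section GR

variable {G : Type} [CommGroup G] [Fintype G]

theorem evR_eq (χ : G →* ℂˣ) (a : MonoidAlgebra ℝ G) :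
    evR χ a = ∑ g : G, (a.coeff g : ℂ) * χ g := by
  unfold evR
  rw [MonoidAlgebra.lift_apply, Finsupp.sum_fintype _ _ (fun g => by simp)]
  refine Finset.sum_congr rfl fun g _ => ?_
  simp

theorem evZ_eq (χ : G →* ℂˣ) (a : MonoidAlgebra ℤ G) :
    evZ χ a = ∑ g : G, (a.coeff g : ℂ) * χ g := by
  show evQ χ (toQ G a) = _
  unfold evQ
  rw [MonoidAlgebra.lift_apply, Finsupp.sum_fintype _ _ (fun g => by simp)]
  refine Finset.sum_congr rfl fun g _ => ?_
  have h : (toQ G a).coeff g = (a.coeff g : ℚ) := by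
    unfold toQ
    rw [MonoidAlgebra.coeff_mapRingHom]
    rfl
  rw [h, Rat.smul_def]
  simp

theorem qToR_toQ (a : MonoidAlgebra ℤ G) : qToR G (toQ G a) = toR G a := by
  apply MonoidAlgebra.ext
  ext g
  unfold qToR toQ toR
  simp [MonoidAlgebra.coeff_mapRingHom]

end GR

section Rep

variable {F H : Type} [Field F] [NumberField F] [Field H] [NumberField H] [Algebra F H]
  {G : Type} [CommGroup G] [Fintype G] (ι : G ≃* (H ≃ₐ[F] H)) {r : ℕ}

theorem dets_zero (f : Fin r → Hˣ → ℝ) : dets ι f 0 = 0 := Finsupp.sum_zero_index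

theorem dets_add (f : Fin r → Hˣ → ℝ) (u v : (Fin r → Hˣ) →₀ MonoidAlgebra ℚ G) :
    dets ι f (u + v) = dets ι f u + dets ι f v := by
  classical
  exact Finsupp.sum_add_index' (fun x => by rw [map_zero, zero_mul])
    (fun x a b => by rw [map_add, add_mul])

theorem dets_single (f : Fin r → Hˣ → ℝ) (x : Fin r → Hˣ) (q : MonoidAlgebra ℚ G) :
    dets ι f (Finsupp.single x q) = MonoidAlgebra.mapRingHom G (algebraMap ℚ ℝ) q *
      Matrix.det (fun i j : Fin r =>
        ∑ γ : G, MonoidAlgebra.single γ (f i ((ι γ)⁻¹ • x j))) :=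
  Finsupp.sum_single_index (by rw [map_zero, zero_mul])

theorem dets_mul (f : Fin r → Hˣ → ℝ) (b : MonoidAlgebra ℚ G)
    (u : (Fin r → Hˣ) →₀ MonoidAlgebra ℚ G) :
    dets ι f (u.mapRange (fun y => b * y) (mul_zero b)) =
      MonoidAlgebra.mapRingHom G (algebraMap ℚ ℝ) b * dets ι f u := by
  unfold dets
  rw [Finsupp.sum_mapRange_index (fun x => by rw [map_zero, zero_mul]), Finsupp.sum,
    Finsupp.sum, Finset.mul_sum]
  refine Finset.sum_congr rfl fun x _ => ?_
  rw [map_mul, mul_assoc]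

variable {M : Type} [AddCommGroup M] [Module (MonoidAlgebra ℤ G) M]

/-- the property of the formal combination `U` -/
def Rep (e : M → Hˣ) (u : (⋀[MonoidAlgebra ℤ G]^r M) ⊗[ℤ] ℚ)
    (U : (Fin r → Hˣ) →₀ MonoidAlgebra ℚ G) : Prop :=
  (∀ x ∈ U.support, ∀ i, ∃ m, e m = x i) ∧
    ∀ (f : Fin r → (M →ₗ[MonoidAlgebra ℤ G] MonoidAlgebra ℝ G)) (f' : Fin r → Hˣ → ℝ),
      (∀ i m, f i m = ∑ γ : G, MonoidAlgebra.single γ (f' i ((ι γ)⁻¹ • e m))) →
      extQ (detMap f).toAddMonoidHom u = dets ι f' U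

variable {ι} in
theorem Rep.add {e : M → Hˣ} {u v : (⋀[MonoidAlgebra ℤ G]^r M) ⊗[ℤ] ℚ}
    {U V : (Fin r → Hˣ) →₀ MonoidAlgebra ℚ G} (hU : Rep ι e u U) (hV : Rep ι e v V) :
    Rep ι e (u + v) (U + V) := by
  classical
  refine ⟨?_, ?_⟩
  · intro x hx
    rcases Finset.mem_union.1 (Finsupp.support_add hx) with h | h
    · exact hU.1 x h
    · exact hV.1 x h
  · intro f f' hf
    rw [map_add, dets_add, hU.2 f f' hf, hV.2 f f' hf]

theorem rep_zero (e : M → Hˣ) : Rep ι e (0 : (⋀[MonoidAlgebra ℤ G]^r M) ⊗[ℤ] ℚ) 0 := by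
  refine ⟨fun x hx => ?_, fun f f' _ => ?_⟩
  · simp at hx
  · rw [map_zero, dets_zero]

theorem rep_tmul (e : M → Hˣ) (n : ⋀[MonoidAlgebra ℤ G]^r M) (q : ℚ) :
    ∃ U, Rep ι e (n ⊗ₜ[ℤ] q) U := by
  have hn : n ∈ Submodule.span (MonoidAlgebra ℤ G)
      (Set.range (exteriorPower.ιMulti (MonoidAlgebra ℤ G) r (M := M))) := by
    rw [exteriorPower.ιMulti_span]
    trivial
  induction hn using Submodule.span_induction with
  | mem n hn =>
    obtain ⟨m, rfl⟩ := hn
    refine ⟨Finsupp.single (fun i => e (m i)) (MonoidAlgebra.single 1 q), ?_, ?_⟩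
    · classical
      intro x hx i
      have h1 := Finsupp.support_single_subset hx
      rw [Finset.mem_singleton] at h1
      exact ⟨m i, by rw [h1]⟩
    · intro f f' hf
      rw [extQ_tmul, dets_single]
      have h1 : (detMap f).toAddMonoidHom ((exteriorPower.ιMulti (MonoidAlgebra ℤ G) r) m) =
          Matrix.det (Matrix.of fun i j => f i (m j)) := detMap_ι f m
      have h2 : MonoidAlgebra.mapRingHom G (algebraMap ℚ ℝ) (MonoidAlgebra.single 1 q) =
          algebraMap ℝ (MonoidAlgebra ℝ G) (q : ℝ) := by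
        rw [MonoidAlgebra.mapRingHom_single]
        rfl
      rw [h1, h2, ← Algebra.smul_def]
      have h3 : (Matrix.of fun i j => f i (m j)) = fun i j : Fin r =>
          ∑ γ : G, MonoidAlgebra.single γ (f' i ((ι γ)⁻¹ • e (m j))) := by
        funext i j
        exact hf i (m j)
      rw [h3]
      exact (Rat.cast_smul_eq_qsmul ℝ q _).symm
  | zero =>
    rw [TensorProduct.zero_tmul]
    exact ⟨0, rep_zero ι e⟩
  | add a b _ _ ha hb =>
    obtain ⟨U, hU⟩ := ha
    obtain ⟨V, hV⟩ := hb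
    rw [TensorProduct.add_tmul]
    exact ⟨U + V, hU.add hV⟩
  | smul a n _ hn =>
    obtain ⟨U, hU1, hU2⟩ := hn
    refine ⟨U.mapRange (fun y => toQ G a * y) (mul_zero _), ?_, ?_⟩
    · intro x hx
      exact hU1 x (Finsupp.support_mapRange hx)
    · intro f f' hf
      rw [dets_mul, ← hU2 f f' hf, extQ_tmul, extQ_tmul]
      have h1 : (detMap f).toAddMonoidHom (a • n) = toR G a * (detMap f).toAddMonoidHom n := by
        show detMap f (a • n) = toR G a * detMap f n
        rw [map_smul]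
        rfl
      have h2 : MonoidAlgebra.mapRingHom G (algebraMap ℚ ℝ) (toQ G a) = toR G a := qToR_toQ a
      rw [h1, h2, mul_smul_comm]

theorem rep_exists (e : M → Hˣ) (u : (⋀[MonoidAlgebra ℤ G]^r M) ⊗[ℤ] ℚ) :
    ∃ U, Rep ι e u U := by
  induction u using TensorProduct.induction_on with
  | zero => exact ⟨0, rep_zero ι e⟩
  | tmul n q => exact rep_tmul ι e n q
  | add a b ha hb =>
    obtain ⟨U, hU⟩ := ha
    obtain ⟨V, hV⟩ := hb
    exact ⟨U + V, hU.add hV⟩

end Rep

end Pool.Agent.RB
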