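import Pool.Agent.Lib_helper15.RB.B

/-!
# The plain form of Rubin's conjecture: the conclusion
-/

set_option autoImplicit false
set_option linter.unusedSectionVars false

namespace Pool.Agent.RB

open NumberField IsDedekindDomain Filter Topology
open Pool.Agent.RSK (extQ extQ_tmul detMap detMap_ι toQ toR qToR evR evQ evZ)
open scoped TensorProduct

variable {F H : Type} [Field F] [NumberField F] [Field H] [NumberField H] [Algebra F H]
  {G : Type} [CommGroup G]

theorem isU_iff (S : Finset (RSK.Pl F)) (T : Finset (HeightOneSpectrum (𝓞 F))) (x : Hˣ) :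
    RSK.IsU S.toRight T x ↔ IsU S T x := by
  unfold RSK.IsU IsU
  simp only [Finset.mem_toRight, nabs_fin_eq_one, nabs_fin_lt_one]

theorem lead_of {S : Finset (RSK.Pl F)} {T : Finset (HeightOneSpectrum (𝓞 F))} {r : ℕ}
    {fr : HeightOneSpectrum (𝓞 F) → G} {c : (G →* ℂˣ) → ℂ}
    (h : RSK.Lead S.toRight T r fr c) : Lead S T r fr c := by
  intro χ
  obtain ⟨Λ, h1, h2, h3⟩ := h χ
  refine ⟨Λ, h1, fun s hs => ?_, h3⟩
  rw [h2 s hs]
  unfold RSK.LST
  congr 1
  let e : {v : HeightOneSpectrum (𝓞 F) // v ∉ S.toRight} ≃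
      {v : HeightOneSpectrum (𝓞 F) // Sum.inr v ∉ S} :=
    Equiv.subtypeEquivRight (fun v => not_congr Finset.mem_toRight)
  exact e.tprod_eq (fun v : {v : HeightOneSpectrum (𝓞 F) // Sum.inr v ∉ S} =>
    (1 - (χ (fr v) : ℂ) * (Ideal.absNorm v.1.asIdeal : ℂ) ^ (-s))⁻¹)

variable [Fintype G]

theorem lg_inv (ι : G ≃* (H ≃ₐ[F] H)) (γ : G) (W : RSK.Pl H) (x : Hˣ) :
    RSK.lg (RSK.act (ι γ) W) (x : H) = Real.log (nabs W (((ι γ)⁻¹ • x : Hˣ) : H)) := by
  rw [log_nabs]
  have h : (x : H) = ι γ (((ι γ)⁻¹ • x : Hˣ) : H) := by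
    have h1 : x = ι γ • (ι γ)⁻¹ • x := by rw [smul_inv_smul]
    conv_lhs => rw [h1]
    rfl
  conv_lhs => rw [h]
  rw [RSK.lg_act]

section Psi

variable {M : Type} [AddCommGroup M] [Module (MonoidAlgebra ℤ G) M]

/-- the linear map given by an additive map to `ℤ` -/
noncomputable def psi (φ : M →+ ℤ) : M →ₗ[MonoidAlgebra ℤ G] MonoidAlgebra ℤ G where
  toFun m := ∑ γ : G, MonoidAlgebra.single γ
    (φ (MonoidAlgebra.single γ⁻¹ (1 : ℤ) • m))
  map_add' m n := by
    rw [← Finset.sum_add_distrib]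
    refine Finset.sum_congr rfl fun γ _ => ?_
    rw [smul_add, map_add, MonoidAlgebra.single_add]
  map_smul' a m := by
    rw [RingHom.id_apply, smul_eq_mul]
    induction a using MonoidAlgebra.induction_on with
    | of g =>
      have h : MonoidAlgebra.of ℤ G g = MonoidAlgebra.single g 1 := rfl
      rw [h, Finset.mul_sum, ← Equiv.sum_comp (Equiv.mulLeft g)]
      refine Finset.sum_congr rfl fun γ _ => ?_
      rw [Equiv.coe_mulLeft, MonoidAlgebra.single_mul_single, one_mul, smul_smul,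
        MonoidAlgebra.single_mul_single, one_mul, mul_inv_rev, inv_mul_cancel_right]
    | add a b ha hb =>
      rw [add_mul, ← ha, ← hb, ← Finset.sum_add_distrib]
      refine Finset.sum_congr rfl fun γ _ => ?_
      rw [add_smul, smul_add, map_add, MonoidAlgebra.single_add]
    | smul c a ha =>
      rw [smul_mul_assoc, ← ha, Finset.smul_sum]
      refine Finset.sum_congr rfl fun γ _ => ?_
      have h : (c • a) • m = c • (a • m) := smul_assoc c a m
      rw [h, smul_comm, map_zsmul, MonoidAlgebra.smul_single]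

theorem psi_apply (φ : M →+ ℤ) (m : M) : psi φ m = ∑ γ : G, MonoidAlgebra.single γ
    (φ (MonoidAlgebra.single γ⁻¹ (1 : ℤ) • m)) := rfl

theorem det_toR {r : ℕ} (ψ : Fin r → (M →ₗ[MonoidAlgebra ℤ G] MonoidAlgebra ℤ G))
    (n : ⋀[MonoidAlgebra ℤ G]^r M) :
    detMap (fun i => (Algebra.linearMap (MonoidAlgebra ℤ G) (MonoidAlgebra ℝ G)).comp (ψ i)) n =
      toR G (detMap ψ n) := by
  have h : detMap (fun i => (Algebra.linearMap (MonoidAlgebra ℤ G) (MonoidAlgebra ℝ G)).comp (ψ i))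
      = (Algebra.linearMap (MonoidAlgebra ℤ G) (MonoidAlgebra ℝ G)).comp (detMap ψ) := by
    apply exteriorPower.linearMap_ext
    ext1 m
    show detMap (fun i =>
        (Algebra.linearMap (MonoidAlgebra ℤ G) (MonoidAlgebra ℝ G)).comp (ψ i))
          (exteriorPower.ιMulti (MonoidAlgebra ℤ G) r m) =
      toR G (detMap ψ (exteriorPower.ιMulti (MonoidAlgebra ℤ G) r m))
    rw [detMap_ι, detMap_ι, RingHom.map_det]
    rfl
  rw [h]
  rfl

end Psi

theorem extQ_smul {R N B : Type} [CommRing R] [AddCommGroup N] [Module R N] [CommRing B]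
    [Module ℚ B] [SMulCommClass ℚ B B] (f : N →+ B) (a : R) (b : B)
    (hf : ∀ n, f (a • n) = b * f n) (u : N ⊗[ℤ] ℚ) : extQ f (a • u) = b * extQ f u := by
  induction u using TensorProduct.induction_on with
  | zero => rw [smul_zero, map_zero, mul_zero]
  | tmul n q =>
    rw [TensorProduct.smul_tmul', extQ_tmul, extQ_tmul, hf, mul_smul_comm]
  | add x y hx hy => rw [smul_add, map_add, map_add, mul_add, hx, hy]

theorem rubinOn_of {J : Ideal (MonoidAlgebra ℤ G)} {ι : G ≃* (H ≃ₐ[F] H)} {S : Finset (RSK.Pl F)}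
    {T : Finset (HeightOneSpectrum (𝓞 F))} {r : ℕ} {w : Fin r → RSK.Pl H}
    {fr : HeightOneSpectrum (𝓞 F) → G} (h : CRF.RubinOn (J : Set (MonoidAlgebra ℤ G)) ι S.toRight T w fr) :
    RubinOn J ι S T w fr := by
  obtain ⟨c, Θ, hL, hΘ, M, i1, i2, e, l, hM, u, hu⟩ := h
  obtain ⟨U, hU1, hU2⟩ := rep_exists ι e u
  have hDl : Θ = dets ι (fun i x => Real.log (nabs (w i) (x : H))) U := by
    rw [← hu.value]
    apply hU2
    intro i m
    rw [hM.log i m]
    refine Finset.sum_congr rfl fun γ _ => ?_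
    rw [lg_inv]
  refine ⟨c, U, lead_of hL, ?_, ?_, ?_⟩
  · intro x hx i
    obtain ⟨m, hm⟩ := hU1 x hx i
    exact (isU_iff S T (x i)).1 ((hM.range (x i)).1 ⟨m, hm⟩)
  · intro χ
    rw [← hDl, ← evR_eq, hΘ]
  · intro f hf a
    have hIU : ∀ m, IsU S T (e m) := fun m => (isU_iff S T (e m)).1 ((hM.range (e m)).1 ⟨m, rfl⟩)
    let φ : Fin r → (M →+ ℤ) := fun i => AddMonoidHom.mk' (fun m => f i (e m)) (fun m n => by
      rw [hM.add]
      exact hf i _ _ (hIU m) (hIU n))
    let ψ : Fin r → (M →ₗ[MonoidAlgebra ℤ G] MonoidAlgebra ℤ G) := fun i => psi (φ i)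
    set L : Fin r → (M →ₗ[MonoidAlgebra ℤ G] MonoidAlgebra ℝ G) :=
      fun i => (Algebra.linearMap (MonoidAlgebra ℤ G) (MonoidAlgebra ℝ G)).comp (ψ i) with hLdef
    have hD : extQ (detMap L).toAddMonoidHom u = dets ι (fun i x => (f i x : ℝ)) U := by
      apply hU2
      intro i m
      show toR G (psi (φ i) m) = _
      rw [psi_apply, map_sum]
      refine Finset.sum_congr rfl fun γ _ => ?_
      have h1 : e (MonoidAlgebra.single γ⁻¹ (1 : ℤ) • m) = (ι γ)⁻¹ • e m := by
        rw [hM.smul, map_inv]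
      show toR G (MonoidAlgebra.single γ (f i (e (MonoidAlgebra.single γ⁻¹ (1 : ℤ) • m)))) = _
      rw [h1]
      unfold toR
      rw [MonoidAlgebra.mapRingHom_single]
      rfl
    have hsm : ∀ a : MonoidAlgebra ℤ G, extQ (detMap L).toAddMonoidHom (a • u) =
        toR G a * dets ι (fun i x => (f i x : ℝ)) U := by
      intro a
      rw [← hD]
      apply extQ_smul
      intro n
      show detMap L (a • n) = toR G a * detMap L n
      rw [map_smul]
      rfl
    refine ⟨fun ha => ?_, fun ha g => ?_⟩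
    · have h1 : a • u = 0 := hu.er a (fun χ hχ => by rw [evZ_eq]; exact ha χ hχ)
      have h2 := hsm a
      rw [h1, map_zero] at h2
      exact h2.symm
    · obtain ⟨b, hb⟩ := hu.integral a ha ψ
      have h1 : extQ (detMap L).toAddMonoidHom (a • u) = toR G b := by
        rw [← qToR_toQ, ← hb]
        have h3 := AU.ln_extQ (qToR G).toAddMonoidHom
          ((toQ G).toAddMonoidHom.comp (detMap ψ).toAddMonoidHom) (a • u)
        have h4 : (qToR G).toAddMonoidHom.comp
            ((toQ G).toAddMonoidHom.comp (detMap ψ).toAddMonoidHom) =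
              (detMap L).toAddMonoidHom := by
          ext1 n
          show qToR G (toQ G (detMap ψ n)) = detMap L n
          rw [qToR_toQ, hLdef, det_toR]
        rw [h4] at h3
        exact h3.symm
      refine ⟨b.coeff g, ?_⟩
      have h2 := hsm a
      rw [h1] at h2
      have h5 : MonoidAlgebra.mapRingHom G (Int.castRingHom ℝ) a *
          dets ι (fun i x => (f i x : ℝ)) U = toR G b := h2.symm
      rw [h5]
      unfold toR
      rw [MonoidAlgebra.coeff_mapRingHom]
      rfl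

/-- the plain form of the conclusion of Rubin's conjecture -/
theorem rubin_of {ι : G ≃* (H ≃ₐ[F] H)} {S : Finset (RSK.Pl F)}
    {T : Finset (HeightOneSpectrum (𝓞 F))} {r : ℕ} {w : Fin r → RSK.Pl H}
    {fr : HeightOneSpectrum (𝓞 F) → G} (h : RSK.Rubin ι S.toRight T w fr) :
    RubinOn ⊤ ι S T w fr := by
  apply rubinOn_of
  obtain ⟨c, Θ, hL, hΘ, M, i1, i2, e, l, hM, u, hu⟩ := h
  refine ⟨c, Θ, hL, hΘ, M, i1, i2, e, l, hM, u, ⟨hu.er, hu.value, ?_⟩⟩
  intro a _ ψ
  obtain ⟨b, hb⟩ := hu.integral ψ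
  refine ⟨a * b, ?_⟩
  rw [map_mul, ← hb]
  apply extQ_smul
  intro n
  show toQ G (detMap ψ (a • n)) = toQ G a * toQ G (detMap ψ n)
  rw [map_smul, smul_eq_mul, map_mul]

end Pool.Agent.RB
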