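import Mathlib

/-!
# Rubin's integral refinement of the Stark conjectures (MP_dd9835_nt): the conjecture

A place of a number field `K` is an element of `InfinitePlace K ⊕ HeightOneSpectrum (RingOfIntegers K)`:
`Sum.inl` of an archimedean place or `Sum.inr` of a finite place.
-/

namespace Pool.Agent.RB

open NumberField IsDedekindDomain Filter Topology

/-- The normalized absolute value: `|x|_w = |x|`, `|x|²`, `(N w) ^ (-ord_w x)` for a real, a complex,
a finite place `w`. -/
noncomputable def nabs {K : Type} [Field K] [NumberField K]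
    (w : InfinitePlace K ⊕ HeightOneSpectrum (RingOfIntegers K)) (x : K) : ℝ :=
  Sum.elim (fun w => w x ^ w.mult) (fun w => HeightOneSpectrum.adicAbv K w x) w

/-- the place of `F` below the place `w` of `H` -/
noncomputable def below (F : Type) {H : Type} [Field F] [NumberField F] [Field H] [NumberField H]
    [Algebra F H] (w : InfinitePlace H ⊕ HeightOneSpectrum (RingOfIntegers H)) :
    InfinitePlace F ⊕ HeightOneSpectrum (RingOfIntegers F) :=
  Sum.map (fun w => w.comap (algebraMap F H)) (fun w => w.under (RingOfIntegers F)) w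

variable {F H : Type} [Field F] [NumberField F] [Field H] [NumberField H] [Algebra F H]
  {G : Type} [CommGroup G]

/-- The data of Rubin's conjecture for the finite abelian extension `H/F`: `G` is identified with the
Galois group by `ι`, `S` and `T` are finite sets of places of `F` (those of `T` are finite places),
the `w_i` are places of `H`, and `fr v` is the Frobenius automorphism at `v ∉ S`. -/
structure Data (ι : MulEquiv G (AlgEquiv F H H))
    (S : Finset (InfinitePlace F ⊕ HeightOneSpectrum (RingOfIntegers F)))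
    (T : Finset (HeightOneSpectrum (RingOfIntegers F))) {r : ℕ}
    (w : Fin r → InfinitePlace H ⊕ HeightOneSpectrum (RingOfIntegers H))
    (fr : HeightOneSpectrum (RingOfIntegers F) → G) : Prop where
  /-- `S` contains the archimedean places -/
  arch : ∀ v : InfinitePlace F, Sum.inl v ∈ S
  /-- `S` contains the finite places which ramify in `H` -/
  unram : ∀ W : HeightOneSpectrum (RingOfIntegers H), Sum.inr (W.under (RingOfIntegers F)) ∉ S →
    Algebra.IsUnramifiedAt (RingOfIntegers F) W.asIdeal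
  /-- `S` and `T` are disjoint -/
  disj : ∀ v ∈ T, Sum.inr v ∉ S
  /-- `T` contains two primes of different residue characteristics or one prime of residue
  characteristic `> [F : ℚ] + 1` -/
  tors : (∃ v ∈ T, ∃ v' ∈ T, ringChar (RingOfIntegers F ⧸ v.asIdeal) ≠
      ringChar (RingOfIntegers F ⧸ v'.asIdeal)) ∨
    ∃ v ∈ T, Module.finrank ℚ F + 1 < ringChar (RingOfIntegers F ⧸ v.asIdeal)
  /-- the places `v_i` below the `w_i` are pairwise distinct -/
  inj : ∀ i j, below F (w i) = below F (w j) → i = j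
  /-- the `v_i` are precisely the places in `S` which split completely in `H` (the decomposition group
  of a place `W` above is trivial: `|σ x|_W = |x|_W` for all `x` only if `σ = 1`) -/
  split : ∀ W : InfinitePlace H ⊕ HeightOneSpectrum (RingOfIntegers H),
    (∃ i, below F W = below F (w i)) ↔
      below F W ∈ S ∧ ∀ σ : AlgEquiv F H H, (∀ x, nabs W (σ x) = nabs W x) → σ = 1
  /-- `#S ≥ r + 1` -/
  card : r + 1 ≤ S.card
  /-- `fr v` is the Frobenius automorphism: `(fr v) x ≡ x ^ (N v)` modulo the places above `v` -/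
  frob : ∀ v, Sum.inr v ∉ S → ∀ W : HeightOneSpectrum (RingOfIntegers H),
    W.under (RingOfIntegers F) = v → ∀ x : RingOfIntegers H,
    nabs (Sum.inr W) (ι (fr v) (x : H) - (x : H) ^ Ideal.absNorm v.asIdeal) < 1

/-- `x ∈ Hˣ` lies in `U_{S,T}`: `|x|_W = 1` for the finite places `W` which do not lie above `S`, and
`x ≡ 1` modulo the places `W` above `T`. -/
def IsU (S : Finset (InfinitePlace F ⊕ HeightOneSpectrum (RingOfIntegers F)))
    (T : Finset (HeightOneSpectrum (RingOfIntegers F))) (x : Units H) : Prop :=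
  ∀ W : HeightOneSpectrum (RingOfIntegers H),
    (Sum.inr (W.under (RingOfIntegers F)) ∉ S → nabs (Sum.inr W) (x : H) = 1) ∧
    (W.under (RingOfIntegers F) ∈ T → nabs (Sum.inr W) ((x : H) - 1) < 1)

/-- `c χ = lim_{s → 0} s^{-r} L_{S,T}(χ, s)` for every character `χ` of `G`; the function `Λ` is the
meromorphic continuation of the Euler product. -/
def Lead (S : Finset (InfinitePlace F ⊕ HeightOneSpectrum (RingOfIntegers F)))
    (T : Finset (HeightOneSpectrum (RingOfIntegers F))) (r : ℕ)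
    (fr : HeightOneSpectrum (RingOfIntegers F) → G) (c : (G →* Units ℂ) → ℂ) : Prop :=
  ∀ χ : G →* Units ℂ, ∃ Λ : ℂ → ℂ, MeromorphicOn Λ Set.univ ∧
    (∀ s : ℂ, 1 < s.re → Λ s =
      (∏ v ∈ T, (1 - (χ (fr v) : ℂ) * (Ideal.absNorm v.asIdeal : ℂ) ^ (1 - s))) *
        ∏' v : {v : HeightOneSpectrum (RingOfIntegers F) // Sum.inr v ∉ S},
          (1 - (χ (fr v) : ℂ) * (Ideal.absNorm v.1.asIdeal : ℂ) ^ (-s))⁻¹) ∧
    Tendsto (fun s : ℂ => Λ s / s ^ r) (𝓝[≠] 0) (𝓝 (c χ))

/-- For `u = ∑ u_x x_1 ∧ … ∧ x_r`, a finite sum over `r`-tuples `x` of elements of `Hˣ` with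
`u_x ∈ ℚ[G]`, and `f_1, …, f_r : Hˣ → ℝ`, the element `∑_x u_x det (∑_γ f_i(γ⁻¹ x_j) γ)` of `ℝ[G]`. -/
noncomputable def dets [Fintype G] (ι : MulEquiv G (AlgEquiv F H H)) {r : ℕ}
    (f : Fin r → Units H → ℝ) (u : Finsupp (Fin r → Units H) (MonoidAlgebra ℚ G)) :
    MonoidAlgebra ℝ G :=
  u.sum fun x q => MonoidAlgebra.mapRingHom G (algebraMap ℚ ℝ) q *
    Matrix.det (fun i j : Fin r => ∑ γ : G, MonoidAlgebra.single γ (f i ((ι γ)⁻¹ • x j)))

/-- There is an element `u ∈ ℚ ⊗ ⋀^r U_{S,T}` with `u = e_r u`, `(w_1^* ∧ … ∧ w_r^*)(λ(u)) = Θ` and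
`a u` in Rubin's lattice for all `a` in the ideal `J` of `ℤ[G]`. If `J = ℤ[G]`, this is Rubin's
conjecture.

Here `w_i^*(λ(x)) = ∑_γ log|γ⁻¹ x|_{w_i} γ`, and `Θ` is given by `χ(Θ) = c(χ⁻¹)`. The elements `ψ` of
`Hom_{ℤ[G]}(U_{S,T}, ℤ[G])` are the maps `x ↦ ∑_γ f(γ⁻¹ x) γ` with `f ∈ Hom(U_{S,T}, ℤ)`, and
`u = e_r u` means that `a u = 0`, i.e. `a (ψ_1 ∧ … ∧ ψ_r)(u) = 0` for all `ψ_i`, for the `a ∈ ℤ[G]`
such that `χ(a) = 0` for all `χ` with `c χ ≠ 0`. -/
def RubinOn [Fintype G] (J : Ideal (MonoidAlgebra ℤ G)) (ι : MulEquiv G (AlgEquiv F H H))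
    (S : Finset (InfinitePlace F ⊕ HeightOneSpectrum (RingOfIntegers F)))
    (T : Finset (HeightOneSpectrum (RingOfIntegers F))) {r : ℕ}
    (w : Fin r → InfinitePlace H ⊕ HeightOneSpectrum (RingOfIntegers H))
    (fr : HeightOneSpectrum (RingOfIntegers F) → G) : Prop :=
  ∃ (c : (G →* Units ℂ) → ℂ) (u : Finsupp (Fin r → Units H) (MonoidAlgebra ℚ G)),
    Lead S T r fr c ∧ (∀ x ∈ u.support, ∀ i, IsU S T (x i)) ∧
    (∀ χ : G →* Units ℂ, ∑ g : G,
      ((dets ι (fun i x => Real.log (nabs (w i) (x : H))) u).coeff g : ℂ) * χ g = c χ⁻¹) ∧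
    ∀ f : Fin r → Units H → ℤ,
      (∀ i x y, IsU S T x → IsU S T y → f i (x * y) = f i x + f i y) →
      ∀ a : MonoidAlgebra ℤ G,
        ((∀ χ : G →* Units ℂ, c χ ≠ 0 → ∑ g : G, (a.coeff g : ℂ) * χ g = 0) →
          MonoidAlgebra.mapRingHom G (Int.castRingHom ℝ) a *
            dets ι (fun i x => (f i x : ℝ)) u = 0) ∧
        (a ∈ J → ∀ g : G, ∃ n : ℤ, (MonoidAlgebra.mapRingHom G (Int.castRingHom ℝ) a *
          dets ι (fun i x => (f i x : ℝ)) u).coeff g = n)

/-- the decomposition group of the place `v` of `F` -/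
def Dg (ι : MulEquiv G (AlgEquiv F H H))
    (v : InfinitePlace F ⊕ HeightOneSpectrum (RingOfIntegers F)) : Subgroup G :=
  Subgroup.closure {g | ∀ W, below F W = v → ∀ x : H, nabs W (ι g x) = nabs W x}

end Pool.Agent.RB
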