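import Pool.Agent.Lib_helper15.RB.Defs

/-!
# Rubin's integral refinement of the Stark conjectures (MP_dd9835_nt): families of extensions
-/

namespace Pool.Agent.RB

/-- Kummer extensions `H/F` which are defined over `F₀ ⊆ F`: for some `n` there is a primitive `n`-th
root of unity `ζ` with `F = F₀(ζ)` and `[F : F₀] = φ(n)`, and a set `B` with `H = F(B)` and
`b ^ n ∈ F₀` for `b ∈ B`; for even `n`, moreover `[F₀(B) : F₀] = [H : F]`. -/
def KumN (F₀ F H : Type) [Field F₀] [Field F] [Field H] [Algebra F₀ F] [Algebra F₀ H]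
    [Algebra F H] : Prop :=
  ∃ (n : ℕ) (ζ : F) (B : Set H), 0 < n ∧ IsPrimitiveRoot ζ n ∧
    IntermediateField.adjoin F₀ {ζ} = ⊤ ∧ Module.finrank F₀ F = n.totient ∧
    (∀ b ∈ B, ∃ a : F₀, b ^ n = algebraMap F₀ H a) ∧ IntermediateField.adjoin F B = ⊤ ∧
    (Even n → Module.finrank F₀ (IntermediateField.adjoin F₀ B) = Module.finrank F H)

/-- `H/F₀` is Galois, and `Gal(H/F₀)` is the semidirect product of `Gal(H/F)` and the image of a
homomorphism `θ` on `(ℤ/m)ˣ` with `θ(a) s θ(a)⁻¹ = s ^ a` and `s ^ m = 1` for all `s ∈ Gal(H/F)`. -/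
def HolT (F₀ F H : Type) [Field F₀] [Field F] [Field H] [Algebra F₀ F] [Algebra F₀ H]
    [Algebra F H] : Prop :=
  IsGalois F₀ H ∧ ∃ (m : ℕ) (θ : Units (ZMod m) →* AlgEquiv F₀ H H), 0 < m ∧
    (∀ s : AlgEquiv F H H, s ^ m = 1) ∧
    (∀ (a : Units (ZMod m)) (s : AlgEquiv F H H) (x : H),
      θ a (s x) = (s ^ (a : ZMod m).val) (θ a x)) ∧
    (∀ γ : AlgEquiv F₀ H H, ∃ (s : AlgEquiv F H H) (a : Units (ZMod m)), ∀ x, γ x = s (θ a x)) ∧
    ∀ (a : Units (ZMod m)) (s : AlgEquiv F H H), (∀ x, θ a x = s x) → a = 1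

/-- `H/F₀` is Galois and `Gal(H/F₀)` is isomorphic to a product of symmetric groups. -/
def SymP (F₀ H : Type) [Field F₀] [Field H] [Algebra F₀ H] : Prop :=
  IsGalois F₀ H ∧ ∃ (k : ℕ) (n : Fin k → ℕ),
    Nonempty (MulEquiv (AlgEquiv F₀ H H) ((i : Fin k) → Equiv.Perm (Fin (n i))))

/-- For some multiple `m` of `[K : F]` the group `(ℤ/m)ˣ` acts on the field `K` by automorphisms `θ a`
such that `θ a ∘ s = s ^ a ∘ θ a` for all `s ∈ Gal(K/F)`, and `θ a` belongs to `Gal(K/F)` only for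
`a = 1`. -/
def HolM (F K : Type) [Field F] [Field K] [Algebra F K] : Prop :=
  ∃ (m : ℕ) (θ : Units (ZMod m) →* RingEquiv K K), 0 < m ∧ Module.finrank F K ∣ m ∧
    (∀ (a : Units (ZMod m)) (s : AlgEquiv F K K) (x : K),
      θ a (s x) = (s ^ (a : ZMod m).val) (θ a x)) ∧
    ∀ (a : Units (ZMod m)) (s : AlgEquiv F K K), (∀ x, θ a x = s x) → a = 1

/-- For every `i`, more than `p ^ f (k f (p - 1) + 1)` primes `l ≠ p` divide `a_i` exactly once and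
divide no `a_j`, `j ≠ i`. -/
def Many (p f : ℕ) {k : ℕ} (a : Fin k → ℤ) : Prop :=
  ∀ i, ∃ s : Finset ℕ, p ^ f * (k * f * (p - 1) + 1) < s.card ∧ ∀ l ∈ s, l.Prime ∧ l ≠ p ∧
    (l : ℤ) ∣ a i ∧ ¬ (l : ℤ) ^ 2 ∣ a i ∧ ∀ j, j ≠ i → ¬ (l : ℤ) ∣ a j

end Pool.Agent.RB
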