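import Pool.Agent.Lib_helper15.RB.Defs

/-!
# Rubin's integral refinement of the Stark conjectures (MP_dd9835_nt): rational Stark elements
-/

namespace Pool.Agent.RB

open NumberField IsDedekindDomain

section

variable {F H : Type} [Field F] [NumberField F] [Field H] [NumberField H] [Algebra F H]
  {G : Type} [CommGroup G]

/-- The characters `χ` with `L^{(r)}_{S,T}(χ, 0) ≠ 0`: for `χ = 1` the set `S` has exactly `r + 1`
elements, and for `χ ≠ 1` only the `v_i` have a decomposition group on which `χ` is trivial. -/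
def Cont (ι : MulEquiv G (AlgEquiv F H H))
    (S : Finset (InfinitePlace F ⊕ HeightOneSpectrum (RingOfIntegers F))) {r : ℕ}
    (w : Fin r → InfinitePlace H ⊕ HeightOneSpectrum (RingOfIntegers H)) (χ : G →* Units ℂ) :
    Prop :=
  (χ = 1 → S.card = r + 1) ∧
  (χ ≠ 1 → ∀ W : InfinitePlace H ⊕ HeightOneSpectrum (RingOfIntegers H), below F W ∈ S →
    (∀ g : G, (∀ x : H, nabs W (ι g x) = nabs W x) → χ g = 1) → ∃ i, below F W = below F (w i))

/-- The formal sum `u` represents a rational Stark element: an element of `ℚ ⊗ ⋀^r U_{S,T}` with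
`(w_1^* ∧ … ∧ w_r^*)(λ(u)) = Θ` and `u = e_r u`, i.e. `a u = 0` for the `a ∈ ℤ[G]` such that
`χ(a) = 0` for the `χ` in `Cont`; here `a u` is zero if and only if all `a (f_1 ∧ … ∧ f_r)(u)` are
zero, for homomorphisms `f_i : U_{S,T} → ℝ`. -/
def Stark [Fintype G] (ι : MulEquiv G (AlgEquiv F H H))
    (S : Finset (InfinitePlace F ⊕ HeightOneSpectrum (RingOfIntegers F)))
    (T : Finset (HeightOneSpectrum (RingOfIntegers F))) {r : ℕ}
    (w : Fin r → InfinitePlace H ⊕ HeightOneSpectrum (RingOfIntegers H))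
    (fr : HeightOneSpectrum (RingOfIntegers F) → G)
    (u : Finsupp (Fin r → Units H) (MonoidAlgebra ℚ G)) : Prop :=
  (∀ x ∈ u.support, ∀ i, IsU S T (x i)) ∧
  (∃ c : (G →* Units ℂ) → ℂ, Lead S T r fr c ∧ ∀ χ : G →* Units ℂ, ∑ g : G,
    ((dets ι (fun i x => Real.log (nabs (w i) (x : H))) u).coeff g : ℂ) * χ g = c χ⁻¹) ∧
  ∀ f : Fin r → Units H → ℝ,
    (∀ i x y, IsU S T x → IsU S T y → f i (x * y) = f i x + f i y) →
    ∀ a : MonoidAlgebra ℤ G,
      (∀ χ : G →* Units ℂ, Cont ι S w χ → ∑ g : G, (a.coeff g : ℂ) * χ g = 0) →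
        MonoidAlgebra.mapRingHom G (Int.castRingHom ℝ) a * dets ι f u = 0

/-- `a u` lies in Rubin's lattice locally at the prime `q`: for all homomorphisms
`f_i : U_{S,T} → ℤ`, the element `a (f_1 ∧ … ∧ f_r)(u)` is in `ℤ_(q)[G]`. -/
def IntAt [Fintype G] (q : ℕ) (a : MonoidAlgebra ℤ G) (ι : MulEquiv G (AlgEquiv F H H))
    (S : Finset (InfinitePlace F ⊕ HeightOneSpectrum (RingOfIntegers F)))
    (T : Finset (HeightOneSpectrum (RingOfIntegers F))) {r : ℕ}
    (u : Finsupp (Fin r → Units H) (MonoidAlgebra ℚ G)) : Prop :=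
  ∀ f : Fin r → Units H → ℤ,
    (∀ i x y, IsU S T x → IsU S T y → f i (x * y) = f i x + f i y) →
    ∃ m : ℕ, ¬ q ∣ m ∧ ∀ g : G, ∃ n : ℤ,
      (m : ℝ) * (MonoidAlgebra.mapRingHom G (Int.castRingHom ℝ) a *
        dets ι (fun i x => (f i x : ℝ)) u).coeff g = n

end

/-- The condition on a cyclic extension `K/F`, with `F₀ ⊆ F ⊆ K ⊆ L`: `L/F₀` is Galois, and an
injective character `χ` of `Gal(K/F)` (inflated to `Gal(L/F)`) induces to `Gal(L/F₀)` the difference
of the permutation characters of two finite `Gal(L/F₀)`-sets. The induced character has at `γ` the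
value `[L : F]⁻¹ ∑ χ(τ)`, the sum over the pairs `δ ∈ Gal(L/F₀)`, `τ ∈ Gal(K/F)` such that
`δ⁻¹ γ δ` restricts to `τ` on `K`. -/
def PermK (F₀ F K L : Type) [Field F₀] [Field F] [Field K] [Field L] [Algebra F K] [Algebra F₀ L]
    [Algebra F L] [Algebra K L] : Prop :=
  IsGalois F₀ L ∧ ∃ (n n' : ℕ) (σ : AlgEquiv F₀ L L →* Equiv.Perm (Fin n))
    (σ' : AlgEquiv F₀ L L →* Equiv.Perm (Fin n')) (χ : AlgEquiv F K K →* Units ℂ),
    Function.Injective χ ∧ ∀ γ : AlgEquiv F₀ L L,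
      (Nat.card {y // σ γ y = y} : ℂ) - Nat.card {y // σ' γ y = y} =
        (Module.finrank F L : ℂ)⁻¹ * ∑ᶠ q : {q : AlgEquiv F₀ L L × AlgEquiv F K K //
          ∀ x : K, γ (q.1 (algebraMap K L x)) = q.1 (algebraMap K L (q.2 x))}, (χ q.1.2 : ℂ)

end Pool.Agent.RB
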