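import Pool.Agent.Lib_helper15.RB.C
import Pool.Agent.Lib_helper15.RB.DefsK
import Pool.Agent.Lib_helper17.KR.Kum

/-!
# Rubin's conjecture for Kummer extensions, in the plain form
-/

set_option autoImplicit false
set_option linter.unusedSectionVars false

namespace Pool.Agent.RB

open NumberField IsDedekindDomain

section Fam

variable {F₀ F H : Type} [Field F₀] [NumberField F₀] [Field F] [NumberField F] [Field H]
  [NumberField H] [Algebra F₀ F] [Algebra F₀ H] [Algebra F H] [IsScalarTower F₀ F H]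

theorem kumN_of (h : KumN F₀ F H) : SY.KumN F H := by
  obtain ⟨n, ζ, B, h0, h1, h2, h3, h4, h5, h6⟩ := h
  exact ⟨F₀, inferInstance, inferInstance, inferInstance, inferInstance, inferInstance, n, ζ, B, h0,
    ⟨h1, h2, h3, h4, h5⟩, h6⟩

theorem holT_of (h : HolT F₀ F H) : SY.HolT F H := by
  obtain ⟨h1, m, θ, h0, h2, h3, h4, h5⟩ := h
  exact ⟨F₀, inferInstance, inferInstance, inferInstance, inferInstance, inferInstance, h1, m, θ, h0,
    h2, h3, h4, h5⟩

theorem symP_of (h : SymP F₀ H) : HM.SymP F H := by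
  obtain ⟨h1, k, n, h2⟩ := h
  exact ⟨F₀, inferInstance, inferInstance, inferInstance, inferInstance, inferInstance, h1, k, n, h2⟩

theorem holM_all [IsGalois F H] {G : Type} [CommGroup G] [Fintype G] (ι : G ≃* (H ≃ₐ[F] H))
    (h : ∀ K : IntermediateField F H, IsCyclic (AlgEquiv F K K) → HolM F K) (N : Subgroup G)
    (hN : IsCyclic (G ⧸ N)) : HM.HolM F (RSK.Kf ι N) := by
  obtain ⟨ι', -⟩ := RSK.kf_quo ι N
  exact h (RSK.Kf ι N) (ι'.isCyclic.1 hN)

end Fam

theorem bd_finite {k : ℕ} (X : ℕ) : {a : Fin k → ℤ | ∀ i, |a i| ≤ X}.Finite := by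
  refine (Set.finite_Icc (fun _ : Fin k => -(X : ℤ)) (fun _ => (X : ℤ))).subset ?_
  intro a ha
  exact ⟨fun i => (abs_le.1 (ha i)).1, fun i => (abs_le.1 (ha i)).2⟩

theorem many_iff {p f k : ℕ} (hp : p.Prime) (hf : 0 < f) (a : Fin k → ℤ) :
    KR.Gd (p ^ f) (KR.bd p f k) a ↔ Many p f a := by
  have h : ∀ l : ℕ, l.Prime → (¬ l ∣ p ^ f ↔ l ≠ p) := by
    intro l hl
    rw [not_iff_not]
    constructor
    · intro h
      exact (Nat.prime_dvd_prime_iff_eq hl hp).1 (hl.dvd_of_dvd_pow h)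
    · rintro rfl
      exact dvd_pow_self l hf.ne'
  unfold KR.Gd KR.bd Many
  constructor
  · intro hh i
    obtain ⟨s, hs, hl⟩ := hh i
    exact ⟨s, hs, fun l hls => ⟨(hl l hls).1, (h l (hl l hls).1).1 (hl l hls).2.1,
      (hl l hls).2.2⟩⟩
  · intro hh i
    obtain ⟨s, hs, hl⟩ := hh i
    exact ⟨s, hs, fun l hls => ⟨(hl l hls).1, (h l (hl l hls).1).2 (hl l hls).2.1,
      (hl l hls).2.2⟩⟩

theorem ku_one {p f k : ℕ} (hp : p.Prime) (hf : 0 < f) {ε : ℝ} (hε : 0 < ε) :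
    ∃ X₀ : ℕ, ∀ X : ℕ, X₀ ≤ X →
      (Nat.card {a : Fin k → ℤ // (∀ i, |a i| ≤ X) ∧ ¬ Many p f a} : ℝ) ≤
        ε * (2 * X + 1) ^ k := by
  classical
  obtain ⟨X₀, h⟩ := KR.dens (q := p ^ f) (pow_pos hp.pos f) (KR.bd p f k) k hε
  refine ⟨X₀, fun X hX => le_trans ?_ (h X hX)⟩
  have hsub : {a : Fin k → ℤ | (∀ i, |a i| ≤ X) ∧ ¬ Many p f a} ⊆
      (((Fintype.piFinset fun _ : Fin k => Finset.Icc (-(X : ℤ)) X).filter
        fun a => ¬ KR.Gd (p ^ f) (KR.bd p f k) a : Finset (Fin k → ℤ)) : Set (Fin k → ℤ)) := by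
    rintro a ⟨h1, h2⟩
    rw [Finset.mem_coe, Finset.mem_filter, Fintype.mem_piFinset]
    exact ⟨fun i => Finset.mem_Icc.2 (abs_le.1 (h1 i)), fun h3 => h2 ((many_iff hp hf a).1 h3)⟩
  have h1 := Set.ncard_le_ncard hsub (Finset.finite_toSet _)
  rw [Set.ncard_coe_finset] at h1
  rw [Nat.cast_le]
  exact h1

theorem mQ_eq {p e f : ℕ} (hp : p.Prime) {G : Type} [CommGroup G] (he : Nat.card G = p ^ e)
    (hf : Monoid.exponent G = p ^ f) : CR.mQ p G = p ^ (f - 1) * ((e - f) * (p - 1) + 1) := by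
  unfold CR.mQ
  rw [he, hf]
  simp [Nat.factorization_pow, hp.factorization_self]

section

variable {F₀ F H : Type} [Field F₀] [NumberField F₀] [Field F] [NumberField F] [Field H]
  [NumberField H] [Algebra F₀ F] [Algebra F₀ H] [Algebra F H] [IsScalarTower F₀ F H] [IsGalois F H]
  {G : Type} [CommGroup G] [Fintype G] (ι : MulEquiv G (AlgEquiv F H H))
  (S : Finset (InfinitePlace F ⊕ HeightOneSpectrum (RingOfIntegers F)))
  (T : Finset (HeightOneSpectrum (RingOfIntegers F))) {r : ℕ}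
  (w : Fin r → InfinitePlace H ⊕ HeightOneSpectrum (RingOfIntegers H))
  (fr : HeightOneSpectrum (RingOfIntegers F) → G)

theorem ku_mid {p f k : ℕ} (hp : p.Prime) (hf : 0 < f) (hk : 0 < k) (a : Fin k → ℤ)
    (ha : Many p f a) (h1 : IsCyclotomicExtension {p ^ f} ℚ F)
    (h2 : Polynomial.IsSplittingField F H
      (∏ i, (Polynomial.X ^ p ^ f - Polynomial.C (a i : F)))) :
    Nonempty (MulEquiv G (Fin k → Multiplicative (ZMod (p ^ f)))) ∧
      (Data ι S T w fr → RubinOn ⊤ ι S T w fr) := by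
  obtain ⟨h3, h4⟩ := KR.kum_good (F := F) (H := H) hp hf hk a ((many_iff hp hf a).2 ha)
  exact ⟨h3.map ι.trans, fun hD => rubin_of (h4 G ι S.toRight T r w fr (data_of hD))⟩

theorem ku_two (hext : KumN F₀ F H ∨ HolT F₀ F H ∨ SymP F₀ H ∨
      ∀ K : IntermediateField F H, IsCyclic (AlgEquiv F K K) → HolM F K)
    (hD : Data ι S T w fr) :
    RubinOn (Ideal.span {(Nat.card G : MonoidAlgebra ℤ G)}) ι S T w fr ∧
      ∀ p e f : ℕ, p.Prime → Nat.card G = p ^ e → Monoid.exponent G = p ^ f →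
        r + p ^ (f - 1) * ((e - f) * (p - 1) + 1) < S.card → RubinOn ⊤ ι S T w fr := by
  have hD' := data_of hD
  have h : HM.HolAll ι := by
    rcases hext with h | h | h | h
    · exact HM.holAll_of ι (Or.inr (Or.inl (kumN_of h)))
    · exact HM.holAll_of ι (Or.inl (holT_of h))
    · exact Or.inr (symP_of h)
    · exact Or.inl fun N hN => holM_all ι h N hN
  have hg := KR.gen ι S.toRight T w fr hD' h
  refine ⟨rubinOn_of (KR.rubinOn_mono hg.1 ?_), ?_⟩
  · intro a ha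
    exact Ideal.mem_span_singleton.1 ha
  · intro p e f hp he hf hS
    have hpf : Fact p.Prime := ⟨hp⟩
    have hG : IsPGroup p G := IsPGroup.of_card he
    apply rubin_of
    refine hg.2 p hp hG ?_
    rw [← card_eq S hD.arch, mQ_eq hp he hf]
    omega

end

end Pool.Agent.RB
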