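import Pool.Agent.Lib_helper15.RB.C
import Pool.Agent.Lib_helper15.MQRF.FIN

/-!
# Rubin's conjecture for multiquadratic extensions, in the plain form
-/

set_option autoImplicit false
set_option linter.unusedSectionVars false

namespace Pool.Agent.RB

open NumberField IsDedekindDomain

/-- `v ^ ord_v(2)` divides `2` -/
theorem ord_two {F : Type} [Field F] [NumberField F] (v : HeightOneSpectrum (𝓞 F)) :
    v.asIdeal ^ (RSK.ordv v (2 : F)).toNat ∣ Ideal.span {(2 : 𝓞 F)} := by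
  rw [← HeightOneSpectrum.intValuation_le_pow_iff_dvd]
  have h1 : v.valuation F (2 : F) = v.intValuation (2 : 𝓞 F) := by
    have := HeightOneSpectrum.valuation_of_algebraMap (K := F) v (2 : 𝓞 F)
    rw [← this]
    congr 1
  have h2 : v.intValuation (2 : 𝓞 F) ≠ 0 := v.intValuation_ne_zero _ two_ne_zero
  have h3 : WithZero.log (v.intValuation (2 : 𝓞 F)) ≤ 0 := by
    rw [WithZero.log_le_iff_le_exp h2, WithZero.exp_zero]
    exact v.intValuation_le_one _
  unfold RSK.ordv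
  rw [h1, Int.toNat_of_nonneg (by omega), neg_neg, WithZero.exp_log h2]

theorem ordv_two_nonneg {F : Type} [Field F] [NumberField F] (v : HeightOneSpectrum (𝓞 F)) :
    0 ≤ RSK.ordv v (2 : F) := by
  have h1 : v.valuation F (2 : F) = v.intValuation (2 : 𝓞 F) := by
    have := HeightOneSpectrum.valuation_of_algebraMap (K := F) v (2 : 𝓞 F)
    rw [← this]
    congr 1
  have h2 : v.intValuation (2 : 𝓞 F) ≠ 0 := v.intValuation_ne_zero _ two_ne_zero
  have h3 : WithZero.log (v.intValuation (2 : 𝓞 F)) ≤ 0 := by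
    rw [WithZero.log_le_iff_le_exp h2, WithZero.exp_zero]
    exact v.intValuation_le_one _
  unfold RSK.ordv
  rw [h1]
  omega

theorem nv_pos {F : Type} [Field F] [NumberField F] (v : HeightOneSpectrum (𝓞 F)) :
    0 < RSK.nv v := by
  unfold RSK.nv
  exact Nat.pos_of_ne_zero (by
    rw [ne_eq, Ideal.absNorm_eq_zero_iff]
    exact v.ne_bot)

section

variable {F H : Type} [Field F] [NumberField F] [Field H] [NumberField H] [Algebra F H]
  {G : Type} [CommGroup G] [Fintype G] (ι : G ≃* (H ≃ₐ[F] H))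

/-- the sum of the `[F_v : ℚ_2]` is at most `[F : ℚ]` -/
theorem dyD_le (S : Finset (HeightOneSpectrum (𝓞 F))) :
    MQR.dyD ι S ≤ 2 ^ Module.finrank ℚ F := by
  classical
  have h1 : ∏ v ∈ S, v.asIdeal ^ (RSK.ordv v (2 : F)).toNat ∣ Ideal.span {(2 : 𝓞 F)} := by
    apply Finset.prod_dvd_of_coprime _ (fun v _ => ord_two v)
    intro v _ w _ hvw
    apply IsCoprime.pow
    rw [Ideal.isCoprime_iff_sup_eq]
    exact Ideal.IsMaximal.coprime_of_ne v.isMaximal w.isMaximal
      (fun h => hvw (HeightOneSpectrum.ext h))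
  have h2 : ∏ v ∈ S, RSK.nv v ^ (RSK.ordv v (2 : F)).toNat ∣ 2 ^ Module.finrank ℚ F := by
    have h3 := map_dvd Ideal.absNorm h1
    rw [map_prod] at h3
    simp only [map_pow] at h3
    have h4 : Ideal.absNorm (Ideal.span {(2 : 𝓞 F)}) = 2 ^ Module.finrank ℚ F := by
      have := Ideal.absNorm_span_natCast (S := 𝓞 F) 2
      rw [RingOfIntegers.rank] at this
      exact_mod_cast this
    rw [h4] at h3
    exact h3
  refine le_trans ?_ (Nat.le_of_dvd (by positivity) h2)
  unfold MQR.dyD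
  apply Finset.prod_le_prod'
  intro v _
  split_ifs
  · exact Nat.one_le_pow _ _ (nv_pos v)
  · exact le_rfl

theorem prod_two (P : Finset (HeightOneSpectrum (𝓞 F))) :
    (∏ v ∈ P, nabs (Sum.inr v) (2 : F))⁻¹ =
      ((∏ v ∈ P, RSK.nv v ^ (RSK.ordv v (2 : F)).toNat : ℕ) : ℝ) := by
  rw [← Finset.prod_inv_distrib]
  push_cast
  refine Finset.prod_congr rfl fun v _ => ?_
  have h1 : nabs (Sum.inr v) (2 : F) = HeightOneSpectrum.adicAbv F v 2 := rfl
  rw [h1, RSK.pf_abv v two_ne_zero, zpow_neg, inv_inv, ← zpow_natCast,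
    Int.toNat_of_nonneg (ordv_two_nonneg v)]

/-- the condition on the dyadic places -/
theorem dyD_le_of (S : Finset (HeightOneSpectrum (𝓞 F))) (P : Finset (HeightOneSpectrum (𝓞 F)))
    (h : ∀ v ∈ S, v ∉ P → IsCyclic (Dg ι (Sum.inr v))) :
    (MQR.dyD ι S : ℝ) ≤ (∏ v ∈ P, nabs (Sum.inr v) (2 : F))⁻¹ := by
  classical
  rw [prod_two, Nat.cast_le]
  unfold MQR.dyD
  calc _ ≤ ∏ v ∈ S, (if v ∈ P then RSK.nv v ^ (RSK.ordv v (2 : F)).toNat else 1) := by
        refine Finset.prod_le_prod' (fun v hvS => ?_)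
        by_cases hP : v ∈ P
        · rw [if_pos hP]
          split_ifs
          · exact Nat.one_le_pow _ _ (nv_pos v)
          · exact le_rfl
        · have h2 : IsCyclic (CR.dgF ι (Sum.inr v)) := by
            rw [← dg_eq]
            exact h v hvS hP
          rw [if_neg hP, if_pos h2]
    _ = ∏ v ∈ S with v ∈ P, RSK.nv v ^ (RSK.ordv v (2 : F)).toNat := by rw [Finset.prod_filter]
    _ ≤ _ := by
        refine Finset.prod_le_prod_of_subset_of_one_le' ?_ ?_
        · intro v hv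
          exact (Finset.mem_filter.1 hv).2
        · exact fun v _ _ => Nat.one_le_pow _ _ (nv_pos v)

theorem rcD_eq : MQR.rcD ι = Nat.card {v : InfinitePlace F // Dg ι (Sum.inl v) ≠ ⊥} := by
  unfold MQR.rcD
  simp only [dg_eq]

theorem sup_eq (S : Finset (RSK.Pl F)) (harch : ∀ v : InfinitePlace F, Sum.inl v ∈ S) :
    (⨆ P : RSK.PS S.toRight, CR.dgF ι P.pl : Subgroup G) = ⨆ v ∈ S, Dg ι v := by
  apply le_antisymm
  · refine iSup_le fun P => ?_
    rcases P with v | v
    · refine le_iSup₂_of_le (Sum.inl v) (harch v) ?_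
      rw [dg_eq]
      exact le_rfl
    · refine le_iSup₂_of_le (Sum.inr v.1) (Finset.mem_toRight.1 v.2) ?_
      rw [dg_eq]
      exact le_rfl
  · refine iSup₂_le fun v hv => ?_
    rcases v with v | v
    · refine le_iSup_of_le (Sum.inl v) ?_
      rw [dg_eq]
      exact le_rfl
    · refine le_iSup_of_le (Sum.inr ⟨v, Finset.mem_toRight.2 hv⟩) ?_
      rw [dg_eq]
      exact le_rfl

end

theorem mq {F H : Type} [Field F] [NumberField F] [Field H] [NumberField H] [Algebra F H]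
    [IsGalois F H] {G : Type} [CommGroup G] [Fintype G] (ι : MulEquiv G (AlgEquiv F H H))
    (S : Finset (InfinitePlace F ⊕ HeightOneSpectrum (RingOfIntegers F)))
    (T : Finset (HeightOneSpectrum (RingOfIntegers F))) {r : ℕ}
    (w : Fin r → InfinitePlace H ⊕ HeightOneSpectrum (RingOfIntegers H))
    (fr : HeightOneSpectrum (RingOfIntegers F) → G) (hD : Data ι S T w fr)
    (hexp : ∀ g : G, g ^ 2 = 1) (κ : ℕ)
    (hS : (∀ v : HeightOneSpectrum (RingOfIntegers F), Sum.inr v ∈ S →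
        (2 : RingOfIntegers F) ∈ v.asIdeal → IsCyclic (Dg ι (Sum.inr v))) ∨
      (IsTotallyReal F ∧ IsTotallyComplex H) ∨
      (∃ P : Finset (HeightOneSpectrum (RingOfIntegers F)),
        (∀ v, Sum.inr v ∈ S → v ∉ P → IsCyclic (Dg ι (Sum.inr v))) ∧
        (∏ v ∈ P, nabs (Sum.inr v) (2 : F))⁻¹ ≤
          2 ^ (Nat.card {v : InfinitePlace F // Dg ι (Sum.inl v) ≠ ⊥} + 1 + 2 * κ)) ∨
      Nat.card (⨆ v ∈ S, Dg ι v : Subgroup G) * 2 ^ r ≤ 2 ^ (S.card + κ) ∨
      Module.finrank ℚ F ≤ 2 * κ + 1 ∨ Nat.card G ≤ 2 ^ (κ + 1)) :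
    RubinOn (Ideal.span ({2} ∪ {x | ∃ g : G, x = MonoidAlgebra.single g 1 - 1}) ^ κ)
      ι S T w fr := by
  have hD' := data_of hD
  have hJ : RG.mI 2 G ^ κ =
      Ideal.span ({2} ∪ {x | ∃ g : G, x = MonoidAlgebra.single g 1 - 1}) ^ κ := by
    unfold RG.mI
    rw [Nat.cast_ofNat]
  rw [← hJ]
  refine rubinOn_of (MQR.fin_MQ ι S.toRight T w fr hD' hexp ?_)
  rw [sup_eq ι S hD.arch, ← card_eq S hD.arch, rcD_eq]
  rcases hS with h | h | h | h | h | h
  · left
    intro v hv h2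
    rw [← dg_eq]
    exact h v (Finset.mem_toRight.1 hv) h2
  · exact Or.inr (Or.inl h)
  · refine Or.inr (Or.inr (Or.inl ?_))
    obtain ⟨P, hP, h⟩ := h
    have h1 := (dyD_le_of ι S.toRight P (fun v hv hvP => hP v (Finset.mem_toRight.1 hv) hvP)).trans h
    exact_mod_cast h1
  · exact Or.inr (Or.inr (Or.inr (Or.inl h)))
  · refine Or.inr (Or.inr (Or.inl ((dyD_le ι S.toRight).trans ?_)))
    exact Nat.pow_le_pow_right (by norm_num) (by omega)
  · refine Or.inr (Or.inr (Or.inr (Or.inl ?_)))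
    have h1 : Nat.card (⨆ v ∈ S, Dg ι v : Subgroup G) ≤ Nat.card G :=
      Subgroup.card_le_card_group _
    have h2 := hD.card
    calc _ ≤ 2 ^ (κ + 1) * 2 ^ r := Nat.mul_le_mul_right _ (h1.trans h)
      _ = 2 ^ (κ + 1 + r) := (pow_add _ _ _).symm
      _ ≤ _ := Nat.pow_le_pow_right (by norm_num) (by omega)

end Pool.Agent.RB
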