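import Pool.Agent.Lib_helper15.RB.C
import Pool.Agent.Lib_helper15.RB.DefsP
import Pool.Agent.Lib_helper35.RS4.D
import Pool.Agent.Lib_helper3.AU.AL

/-!
# The plain form: rational Stark elements
-/

set_option autoImplicit false
set_option linter.unusedSectionVars false

namespace Pool.Agent.RB

open NumberField IsDedekindDomain Filter Topology
open Pool.Agent.RSK (extQ extQ_tmul detMap detMap_ι toQ toR qToR evR evQ evZ UM wl)
open Pool.Agent.RS4 (scl extQ_scl smul_scl)
open scoped TensorProduct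

/-! ## The idempotent -/

section Idem

variable {G : Type} [CommGroup G] [Fintype G]

theorem idem (A : Set (G →* ℂˣ)) : ∃ (N : ℕ) (b : MonoidAlgebra ℤ G), 0 < N ∧
    (∀ χ ∈ A, evZ χ b = 0) ∧
    ∀ a : MonoidAlgebra ℤ G, (∀ χ ∈ A, evZ χ a = 0) → a * b = (N : MonoidAlgebra ℤ G) * a := by
  classical
  let I : Ideal (MonoidAlgebra ℚ G) :=
    { carrier := {a | ∀ χ ∈ A, evQ χ a = 0}
      add_mem' := fun {a b} ha hb χ hχ => by rw [map_add, ha χ hχ, hb χ hχ, add_zero]
      zero_mem' := fun χ _ => map_zero _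
      smul_mem' := fun c a ha χ hχ => by rw [smul_eq_mul, map_mul, ha χ hχ, mul_zero] }
  obtain ⟨e, he, hI⟩ := IsSemisimpleRing.ideal_eq_span_idempotent I
  -- a common denominator of the coefficients
  let N : ℕ := ∏ g : G, (e.coeff g).den
  have hN : 0 < N := Finset.prod_pos fun g _ => (e.coeff g).den_pos
  have hint : ∀ g : G, ∃ n : ℤ, (N : ℚ) * e.coeff g = n := by
    intro g
    obtain ⟨k, hk⟩ : (e.coeff g).den ∣ N := Finset.dvd_prod_of_mem _ (Finset.mem_univ g)
    refine ⟨k * (e.coeff g).num, ?_⟩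
    rw [hk]
    push_cast
    have h1 : ((e.coeff g).den : ℚ) * e.coeff g = (e.coeff g).num := by
      rw [mul_comm]
      exact Rat.mul_den_eq_num _
    calc ((e.coeff g).den : ℚ) * k * e.coeff g = k * ((e.coeff g).den * e.coeff g) := by ring
      _ = _ := by rw [h1]
  choose n hn using hint
  let b : MonoidAlgebra ℤ G := ∑ g : G, MonoidAlgebra.single g (n g)
  have hb : toQ G b = (N : MonoidAlgebra ℚ G) * e := by
    have h1 : (N : MonoidAlgebra ℚ G) * e = ∑ g : G, MonoidAlgebra.single g ((N : ℚ) * e.coeff g) := by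
      have h2 : e = ∑ g : G, MonoidAlgebra.single g (e.coeff g) := by
        conv_lhs => rw [← MonoidAlgebra.sum_coeff_single e]
        rw [Finsupp.sum_fintype _ _ (fun g => by simp)]
      conv_lhs => rw [h2]
      rw [Finset.mul_sum]
      refine Finset.sum_congr rfl fun g _ => ?_
      have h3 : (N : MonoidAlgebra ℚ G) = MonoidAlgebra.single 1 (N : ℚ) := by
        rw [← map_natCast (algebraMap ℚ (MonoidAlgebra ℚ G)) N]
        rfl
      rw [h3, MonoidAlgebra.single_mul_single, one_mul]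
    rw [h1, map_sum]
    refine Finset.sum_congr rfl fun g _ => ?_
    unfold toQ
    rw [MonoidAlgebra.mapRingHom_single, hn]
    rfl
  have heI : e ∈ I := by rw [hI]; exact Ideal.mem_span_singleton_self e
  refine ⟨N, b, hN, fun χ hχ => ?_, fun a ha => ?_⟩
  · show evQ χ (toQ G b) = 0
    rw [hb, map_mul, heI χ hχ, mul_zero]
  · apply AU.al_toQ_inj
    have haI : toQ G a ∈ I := fun χ hχ => ha χ hχ
    rw [hI, Ideal.mem_span_singleton'] at haI
    obtain ⟨x, hx⟩ := haI
    rw [map_mul, map_mul, hb, map_natCast, ← hx]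
    have h5 : e * e = e := he
    calc x * e * (N * e) = N * (x * (e * e)) := by ring
      _ = N * (x * e) := by rw [h5]

end Idem

section Gen

variable {F H : Type} [Field F] [NumberField F] [Field H] [NumberField H] [Algebra F H]
  {G : Type} [CommGroup G] [Fintype G]

theorem lead_to {S : Finset (RSK.Pl F)} {T : Finset (HeightOneSpectrum (𝓞 F))} {r : ℕ}
    {fr : HeightOneSpectrum (𝓞 F) → G} {c : (G →* ℂˣ) → ℂ}
    (h : Lead S T r fr c) : RSK.Lead S.toRight T r fr c := by
  intro χ
  obtain ⟨Λ, h1, h2, h3⟩ := h χ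
  refine ⟨Λ, h1, fun s hs => ?_, h3⟩
  rw [h2 s hs]
  unfold RSK.LST
  congr 1
  let e : {v : HeightOneSpectrum (𝓞 F) // v ∉ S.toRight} ≃
      {v : HeightOneSpectrum (𝓞 F) // Sum.inr v ∉ S} :=
    Equiv.subtypeEquivRight (fun v => not_congr Finset.mem_toRight)
  exact (e.tprod_eq (fun v : {v : HeightOneSpectrum (𝓞 F) // Sum.inr v ∉ S} =>
    (1 - (χ (fr v) : ℂ) * (Ideal.absNorm v.1.asIdeal : ℂ) ^ (-s))⁻¹)).symm

theorem cont_iff {ι : G ≃* (H ≃ₐ[F] H)} {S : Finset (RSK.Pl F)}
    (harch : ∀ v : InfinitePlace F, Sum.inl v ∈ S) {r : ℕ} {w : Fin r → RSK.Pl H}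
    (χ : G →* ℂˣ) : AU.Cont ι S.toRight w χ ↔ Cont ι S w χ := by
  unfold AU.Cont Cont
  rw [card_eq S harch]
  simp only [inS_iff S harch, below_eq, inv_iff]

variable (ι : G ≃* (H ≃ₐ[F] H)) {r : ℕ}

section Rep

variable {M : Type} [AddCommGroup M] [Module (MonoidAlgebra ℤ G) M]

theorem rep_lift_single (e : M → Hˣ) (x : Fin r → Hˣ) (hx : ∀ i, ∃ m, e m = x i)
    (q : MonoidAlgebra ℚ G) : ∃ u : (⋀[MonoidAlgebra ℤ G]^r M) ⊗[ℤ] ℚ,
      Rep ι e u (Finsupp.single x q) := by
  classical
  choose m hm using hx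
  refine ⟨∑ g : G, ((MonoidAlgebra.single g (1 : ℤ)) •
    exteriorPower.ιMulti (MonoidAlgebra ℤ G) r m) ⊗ₜ[ℤ] (q.coeff g), ?_, ?_⟩
  · intro y hy i
    have h1 := Finsupp.support_single_subset hy
    rw [Finset.mem_singleton] at h1
    rw [h1]
    exact ⟨m i, hm i⟩
  · intro f f' hf
    rw [map_sum, dets_single]
    have h3 : (Matrix.of fun i j => f i (m j)) = fun i j : Fin r =>
        ∑ γ : G, MonoidAlgebra.single γ (f' i ((ι γ)⁻¹ • x j)) := by
      funext i j
      rw [← hm j]
      exact hf i (m j)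
    have h2 : MonoidAlgebra.mapRingHom G (algebraMap ℚ ℝ) q =
        ∑ g : G, MonoidAlgebra.single g ((q.coeff g : ℚ) : ℝ) := by
      have h4 : q = ∑ g : G, MonoidAlgebra.single g (q.coeff g) := by
        conv_lhs => rw [← MonoidAlgebra.sum_coeff_single q]
        rw [Finsupp.sum_fintype _ _ (fun g => by simp)]
      conv_lhs => rw [h4]
      rw [map_sum]
      refine Finset.sum_congr rfl fun g _ => ?_
      rw [MonoidAlgebra.mapRingHom_single]
      rfl
    rw [h2, Finset.sum_mul]
    refine Finset.sum_congr rfl fun g _ => ?_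
    rw [extQ_tmul]
    have h1 : (detMap f).toAddMonoidHom ((MonoidAlgebra.single g (1 : ℤ)) •
        exteriorPower.ιMulti (MonoidAlgebra ℤ G) r m) =
          MonoidAlgebra.single g (1 : ℝ) * Matrix.det (Matrix.of fun i j => f i (m j)) := by
      show detMap f _ = _
      rw [map_smul, detMap_ι]
      show toR G (MonoidAlgebra.single g (1 : ℤ)) * _ = _
      congr 1
      simp [toR]
    rw [h1, h3]
    have h5 : MonoidAlgebra.single g ((q.coeff g : ℚ) : ℝ) =
        (q.coeff g) • MonoidAlgebra.single g (1 : ℝ) := by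
      have h6 : (q.coeff g) • MonoidAlgebra.single g (1 : ℝ) =
          ((q.coeff g : ℚ) : ℝ) • MonoidAlgebra.single g (1 : ℝ) :=
        (Rat.cast_smul_eq_qsmul ℝ (q.coeff g) _).symm
      rw [h6, MonoidAlgebra.smul_single, smul_eq_mul, mul_one]
    rw [h5, smul_mul_assoc]

theorem rep_lift (e : M → Hˣ) (U : (Fin r → Hˣ) →₀ MonoidAlgebra ℚ G)
    (hU : ∀ x ∈ U.support, ∀ i, ∃ m, e m = x i) :
    ∃ u : (⋀[MonoidAlgebra ℤ G]^r M) ⊗[ℤ] ℚ, Rep ι e u U := by
  classical
  induction U using Finsupp.induction with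
  | zero => exact ⟨0, rep_zero ι e⟩
  | single_add x q U hx hq ih =>
    have hs : (Finsupp.single x q + U).support = insert x U.support := by
      rw [Finsupp.support_single_add hx hq, Finset.cons_eq_insert]
    obtain ⟨u, hu⟩ := ih (fun y hy i => hU y (by rw [hs]; exact Finset.mem_insert_of_mem hy) i)
    obtain ⟨v, hv⟩ := rep_lift_single ι e x
      (fun i => hU x (by rw [hs]; exact Finset.mem_insert_self _ _) i) q
    exact ⟨v + u, hv.add hu⟩

/-- the linear map given by an additive map to `ℝ` -/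
noncomputable def psiR (φ : M →+ ℝ) : M →ₗ[MonoidAlgebra ℤ G] MonoidAlgebra ℝ G where
  toFun m := ∑ γ : G, MonoidAlgebra.single γ
    (φ (MonoidAlgebra.single γ⁻¹ (1 : ℤ) • m))
  map_add' m n := by
    rw [← Finset.sum_add_distrib]
    refine Finset.sum_congr rfl fun γ _ => ?_
    rw [smul_add, map_add, MonoidAlgebra.single_add]
  map_smul' a m := by
    rw [RingHom.id_apply]
    show _ = toR G a * _
    induction a using MonoidAlgebra.induction_on with
    | of g =>
      have h : MonoidAlgebra.of ℤ G g = MonoidAlgebra.single g 1 := rfl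
      have h' : toR G (MonoidAlgebra.single g (1 : ℤ)) = MonoidAlgebra.single g (1 : ℝ) := by
        simp [toR]
      rw [h, h', Finset.mul_sum, ← Equiv.sum_comp (Equiv.mulLeft g)]
      refine Finset.sum_congr rfl fun γ _ => ?_
      rw [Equiv.coe_mulLeft, MonoidAlgebra.single_mul_single, one_mul, smul_smul,
        MonoidAlgebra.single_mul_single, one_mul, mul_inv_rev, inv_mul_cancel_right]
    | add a b ha hb =>
      rw [map_add, add_mul, ← ha, ← hb, ← Finset.sum_add_distrib]
      refine Finset.sum_congr rfl fun γ _ => ?_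
      rw [add_smul, smul_add, map_add, MonoidAlgebra.single_add]
    | smul c a ha =>
      rw [map_zsmul, smul_mul_assoc, ← ha, Finset.smul_sum]
      refine Finset.sum_congr rfl fun γ _ => ?_
      have h : (c • a) • m = c • (a • m) := smul_assoc c a m
      rw [h, smul_comm, map_zsmul, MonoidAlgebra.smul_single]

theorem psiR_apply (φ : M →+ ℝ) (m : M) : psiR φ m = ∑ γ : G, MonoidAlgebra.single γ
    (φ (MonoidAlgebra.single γ⁻¹ (1 : ℤ) • m)) := rfl

end Rep

theorem isMod_wl (S T : Finset (HeightOneSpectrum (𝓞 F))) (w : Fin r → RSK.Pl H) :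
    RSK.IsMod ι S T w (fun m : UM ι S T => m.val) (fun i => wl ι S T (w i)) := by
  refine ⟨?_, ?_, ?_, ?_, ?_⟩
  · intro m n hmn
    exact RSK.UM.ext hmn
  · intro x
    rw [← RSK.isU_iff]
    constructor
    · rintro ⟨m, rfl⟩
      exact m.val_mem
    · intro hx
      exact ⟨RSK.UM.mk x hx, RSK.UM.val_mk x hx⟩
  · intro m n
    exact RSK.UM.val_add m n
  · intro g m
    exact RSK.um_single_smul ι S T g m
  · intro i m
    rfl

end Gen

end Pool.Agent.RB
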