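import Pool.Agent.Lib_helper15.RB.P
import Pool.Agent.Lib_helper15.RB.KU
import Pool.Agent.Lib_helper17.KR.AtP

/-!
# Rubin's conjecture at `p`, in the plain form
-/

set_option autoImplicit false
set_option linter.unusedSectionVars false

namespace Pool.Agent.RB

open NumberField IsDedekindDomain Filter Topology
open Pool.Agent.RSK (extQ extQ_tmul detMap detMap_ι toQ toR qToR evR evQ evZ UM wl)
open Pool.Agent.RS4 (scl extQ_scl smul_scl)
open scoped TensorProduct

variable {F H : Type} [Field F] [NumberField F] [Field H] [NumberField H] [Algebra F H]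
  {G : Type} [CommGroup G] [Fintype G]

/-- `toR` of a natural number times `a` -/
theorem toR_nat (N : ℕ) (x : MonoidAlgebra ℝ G) : toR G (N : MonoidAlgebra ℤ G) * x = N • x := by
  rw [map_natCast, nsmul_eq_mul]

/-- `StarkMul` in the plain form -/
theorem intAt_of {q : ℕ} {a : MonoidAlgebra ℤ G} {ι : G ≃* (H ≃ₐ[F] H)} {S : Finset (RSK.Pl F)}
    (harch : ∀ v : InfinitePlace F, Sum.inl v ∈ S)
    {T : Finset (HeightOneSpectrum (𝓞 F))} {r : ℕ} {w : Fin r → RSK.Pl H}
    {fr : HeightOneSpectrum (𝓞 F) → G} (h : CRF.StarkMul q a ι S.toRight T w fr)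
    {U : (Fin r → Hˣ) →₀ MonoidAlgebra ℚ G} (hU : Stark ι S T w fr U) :
    IntAt q a ι S T U := by
  obtain ⟨hU1, ⟨c, hL, hval⟩, hU3⟩ := hU
  have hM := isMod_wl ι S.toRight T w
  set M := UM ι S.toRight T with hMdef
  set e : M → Hˣ := fun m => m.val with hedef
  set l : Fin r → (M →ₗ[MonoidAlgebra ℤ G] MonoidAlgebra ℝ G) := fun i => wl ι S.toRight T (w i)
    with hldef
  have hIU : ∀ m, IsU S T (e m) := fun m => (isU_iff S T (e m)).1 ((hM.range (e m)).1 ⟨m, rfl⟩)
  obtain ⟨u, hu1, hu2⟩ := rep_lift ι e U (fun x hx i =>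
    (hM.range (x i)).2 ((isU_iff S T (x i)).2 (hU1 x hx i)))
  obtain ⟨N, b, hN, hb1, hb2⟩ := idem {χ : G →* ℂˣ | Cont ι S w χ}
  have hN' : (N : ℚ) ≠ 0 := Nat.cast_ne_zero.2 hN.ne'
  -- the new element
  set v := scl ((N : ℚ)⁻¹) ((((N : MonoidAlgebra ℤ G) - b)) • u) with hv
  -- its values
  have hcomp : ∀ (f : Fin r → (M →ₗ[MonoidAlgebra ℤ G] MonoidAlgebra ℝ G))
      (f' : Fin r → Hˣ → ℝ), (∀ i x y, IsU S T x → IsU S T y → f' i (x * y) = f' i x + f' i y) →
      (∀ i m, f i m = ∑ γ : G, MonoidAlgebra.single γ (f' i ((ι γ)⁻¹ • e m))) →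
      ∀ a : MonoidAlgebra ℤ G, extQ (detMap f).toAddMonoidHom (a • v) =
        toR G a * dets ι f' U := by
    intro f f' hadd hf a
    have hsm : ∀ (a : MonoidAlgebra ℤ G) (y : (⋀[MonoidAlgebra ℤ G]^r M) ⊗[ℤ] ℚ),
        extQ (detMap f).toAddMonoidHom (a • y) =
        toR G a * extQ (detMap f).toAddMonoidHom y := by
      intro a y
      apply extQ_smul
      intro n
      show detMap f (a • n) = toR G a * detMap f n
      rw [map_smul]
      rfl
    have h0 : toR G b * dets ι f' U = 0 :=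
      hU3 f' hadd b (fun χ hχ => by rw [← evZ_eq]; exact hb1 χ hχ)
    rw [hsm, hv, extQ_scl, hsm, hu2 f f' hf]
    congr 1
    rw [map_sub, sub_mul, h0, sub_zero, toR_nat]
    rw [← Nat.cast_smul_eq_nsmul ℚ, smul_smul, inv_mul_cancel₀ hN', one_smul]
  -- the logarithms
  have hlog : ∀ i x y, IsU S T x → IsU S T y →
      Real.log (nabs (w i) ((x * y : Hˣ) : H)) =
        Real.log (nabs (w i) (x : H)) + Real.log (nabs (w i) (y : H)) := by
    intro i x y _ _
    rw [log_nabs, log_nabs, log_nabs, Units.val_mul, RSK.lg_mul _ x.ne_zero y.ne_zero]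
  have hΘ : extQ (detMap l).toAddMonoidHom v =
      dets ι (fun i x => Real.log (nabs (w i) (x : H))) U := by
    have h1 := hcomp l (fun i x => Real.log (nabs (w i) (x : H))) hlog (fun i m => by
      rw [hM.log i m]
      refine Finset.sum_congr rfl fun γ _ => ?_
      rw [lg_inv]) 1
    rwa [one_smul, map_one, one_mul] at h1
  have hstk : AU.IsStk l {a | ∀ χ, AU.Cont ι S.toRight w χ → evZ χ a = 0}
      (dets ι (fun i x => Real.log (nabs (w i) (x : H))) U) v := by
    refine ⟨fun a ha => ?_, hΘ⟩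
    have h1 : a * ((N : MonoidAlgebra ℤ G) - b) = 0 := by
      rw [mul_sub, hb2 a (fun χ hχ => ha χ ((cont_iff harch χ).2 hχ)), mul_comm, sub_self]
    rw [hv, smul_scl, smul_smul, h1, zero_smul, map_zero]
  have hint := h c _ (lead_to hL) (fun χ => by rw [evR_eq]; exact hval χ) M inferInstance
    inferInstance e l hM v hstk
  -- the integrality
  intro f hf
  let φ : Fin r → (M →+ ℤ) := fun i => AddMonoidHom.mk' (fun m => f i (e m)) (fun m n => by
    rw [hM.add]
    exact hf i _ _ (hIU m) (hIU n))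
  let ψ : Fin r → (M →ₗ[MonoidAlgebra ℤ G] MonoidAlgebra ℤ G) := fun i => psi (φ i)
  set L : Fin r → (M →ₗ[MonoidAlgebra ℤ G] MonoidAlgebra ℝ G) :=
    fun i => (Algebra.linearMap (MonoidAlgebra ℤ G) (MonoidAlgebra ℝ G)).comp (ψ i) with hLdef
  have hLv : ∀ i m, L i m = ∑ γ : G, MonoidAlgebra.single γ
      ((fun i x => (f i x : ℝ)) i ((ι γ)⁻¹ • e m)) := by
    intro i m
    show toR G (psi (φ i) m) = _
    rw [psi_apply, map_sum]
    refine Finset.sum_congr rfl fun γ _ => ?_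
    have h1 : e (MonoidAlgebra.single γ⁻¹ (1 : ℤ) • m) = (ι γ)⁻¹ • e m := by
      rw [hM.smul, map_inv]
    show toR G (MonoidAlgebra.single γ (f i (e (MonoidAlgebra.single γ⁻¹ (1 : ℤ) • m)))) = _
    rw [h1]
    unfold toR
    rw [MonoidAlgebra.mapRingHom_single]
    rfl
  have hLa := hcomp L (fun i x => (f i x : ℝ)) (fun i x y hx hy => by
    show ((f i (x * y) : ℤ) : ℝ) = _
    rw [hf i x y hx hy]
    push_cast
    rfl) hLv a
  obtain ⟨m, d, hm, hd⟩ := hint ψ
  refine ⟨m, hm, fun g => ⟨d.coeff g, ?_⟩⟩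
  have h3 := AU.ln_extQ (qToR G).toAddMonoidHom
    ((toQ G).toAddMonoidHom.comp (detMap ψ).toAddMonoidHom) (a • v)
  have h4 : (qToR G).toAddMonoidHom.comp
      ((toQ G).toAddMonoidHom.comp (detMap ψ).toAddMonoidHom) =
        (detMap L).toAddMonoidHom := by
    ext1 n
    show qToR G (toQ G (detMap ψ n)) = detMap L n
    rw [qToR_toQ, hLdef, det_toR]
  rw [h4, hLa] at h3
  have h5 : toR G d = m • (toR G a * dets ι (fun i x => (f i x : ℝ)) U) := by
    rw [pow_zero, mul_one] at hd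
    rw [← qToR_toQ, ← hd, map_nsmul, ← h3]
    rfl
  have h6 : (m : ℝ) * (toR G a * dets ι (fun i x => (f i x : ℝ)) U).coeff g =
      (m • (toR G a * dets ι (fun i x => (f i x : ℝ)) U)).coeff g := by
    rw [MonoidAlgebra.coeff_smul, Finsupp.smul_apply, nsmul_eq_mul]
  show (m : ℝ) * (toR G a * dets ι (fun i x => (f i x : ℝ)) U).coeff g = (d.coeff g : ℝ)
  rw [h6, ← h5]
  unfold toR
  rw [MonoidAlgebra.coeff_mapRingHom]
  rfl

/-- the existence of rational Stark elements -/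
theorem stark_of [IsGalois F H] {ι : G ≃* (H ≃ₐ[F] H)} {S : Finset (RSK.Pl F)}
    {T : Finset (HeightOneSpectrum (𝓞 F))} {r : ℕ} {w : Fin r → RSK.Pl H}
    {fr : HeightOneSpectrum (𝓞 F) → G} (hD : Data ι S T w fr)
    (hP : ∀ N : Subgroup G, IsCyclic (G ⧸ N) → N ≠ ⊤ → SY.PermLay F (RSK.Kf ι N)) :
    ∃ U, Stark ι S T w fr U := by
  have hD' := data_of hD
  obtain ⟨c, Θ, hL, hΘ, M, i1, i2, e, l, hM, u, hu⟩ := SY.stark_perm hD' hP
  obtain ⟨U, hU1, hU2⟩ := rep_exists ι e u
  have hDl : Θ = dets ι (fun i x => Real.log (nabs (w i) (x : H))) U := by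
    rw [← hu.value]
    apply hU2
    intro i m
    rw [hM.log i m]
    refine Finset.sum_congr rfl fun γ _ => ?_
    rw [lg_inv]
  have hIU : ∀ m, IsU S T (e m) := fun m => (isU_iff S T (e m)).1 ((hM.range (e m)).1 ⟨m, rfl⟩)
  refine ⟨U, ?_, ⟨c, lead_of hL, ?_⟩, ?_⟩
  · intro x hx i
    obtain ⟨m, hm⟩ := hU1 x hx i
    rw [← hm]
    exact hIU m
  · intro χ
    rw [← hDl, ← evR_eq, hΘ]
  · intro f hf a ha
    let φ : Fin r → (M →+ ℝ) := fun i => AddMonoidHom.mk' (fun m => f i (e m)) (fun m n => by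
      rw [hM.add]
      exact hf i _ _ (hIU m) (hIU n))
    have h1 : extQ (detMap (fun i => psiR (φ i))).toAddMonoidHom u = dets ι f U := by
      apply hU2
      intro i m
      rw [psiR_apply]
      refine Finset.sum_congr rfl fun γ _ => ?_
      have h1 : e (MonoidAlgebra.single γ⁻¹ (1 : ℤ) • m) = (ι γ)⁻¹ • e m := by
        rw [hM.smul, map_inv]
      show MonoidAlgebra.single γ (f i (e (MonoidAlgebra.single γ⁻¹ (1 : ℤ) • m))) = _
      rw [h1]
    have h2 : extQ (detMap (fun i => psiR (φ i))).toAddMonoidHom (a • u) =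
        toR G a * extQ (detMap (fun i => psiR (φ i))).toAddMonoidHom u := by
      apply extQ_smul
      intro n
      show detMap _ (a • n) = toR G a * detMap _ n
      rw [map_smul]
      rfl
    have h3 : a • u = 0 := hu.er a (fun χ hχ => by
      rw [evZ_eq]
      refine ha χ ((cont_iff hD.arch χ).1 ?_)
      by_contra hc
      exact hχ (CR.cont_zero hD' hL hP χ hc))
    rw [h3, map_zero, h1] at h2
    exact h2.symm

end Pool.Agent.RB
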